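import Pool.Agent.Helper227.RD.Neg3
import Pool.Agent.Helper227.TD.Exist
import Pool.Agent.Helper227.KC2

set_option autoImplicit false

namespace Pool.Agent.Helper227

open Encodable MeasureTheory
open scoped ENNReal
open Nat.Partrec (Code)

section gen

variable {α β : Type*} [Primcodable α] [Primcodable β]

theorem s1_graph {f : α →. β} (hf : Partrec f) : S1 fun x : α × β => x.2 ∈ f x.1 := by
  have h1 : Partrec fun x : α × β => (f x.1).bind fun y =>
      (if encode y = encode x.2 then Part.some () else Part.none) := by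
    refine Partrec.bind (hf.comp Computable.fst) ?_
    have h2 : PrimrecPred fun z : (α × β) × β => encode z.2 = encode z.1.2 :=
      Primrec.eq.comp (Primrec.encode.comp Primrec.snd)
        (Primrec.encode.comp (Primrec.snd.comp Primrec.fst))
    have h3 : Partrec fun z : (α × β) × β =>
        (cond (decide (encode z.2 = encode z.1.2)) (Part.some ())
          Part.none : Part Unit) :=
      Partrec.cond h2.decide.to_comp (Computable.const ()).partrec Partrec.none
    refine h3.of_eq fun z => ?_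
    by_cases h : encode z.2 = encode z.1.2 <;> simp [h]
  refine (S1.of_re h1.dom_re).of_eq fun x => ?_
  simp only [Part.bind_dom]
  constructor
  · rintro ⟨h, h2⟩
    by_cases h3 : encode ((f x.1).get h) = encode x.2
    · rw [← encode_injective h3]; exact Part.get_mem h
    · rw [if_neg h3] at h2
      exact h2.elim
  · intro h
    refine ⟨Part.dom_iff_mem.2 ⟨_, h⟩, ?_⟩
    have h3 : (f x.1).get (Part.dom_iff_mem.2 ⟨_, h⟩) = x.2 :=
      Part.get_eq_of_mem h _
    rw [h3, if_pos rfl]
    trivial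

theorem partrec_of_s1 {f : α →. β} (h : S1 fun x : α × β => x.2 ∈ f x.1) : Partrec f := by
  classical
  obtain ⟨q, hq, mq, eq⟩ := h
  let g : α → ℕ → Option β := fun a n => (decode (α := β × ℕ) n).bind fun p =>
    if q (a, p.1) p.2 then some p.1 else none
  have hg : Primrec₂ g := by
    refine Primrec.option_bind (Primrec.decode.comp Primrec.snd) ?_
    refine Primrec.ite ?_ (Primrec.option_some.comp (Primrec.fst.comp Primrec.snd))
      (Primrec.const none)
    exact hq.comp ((Primrec.fst.comp Primrec.fst).pair (Primrec.fst.comp Primrec.snd))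
      (Primrec.snd.comp Primrec.snd)
  have hsound : ∀ a n b, b ∈ g a n → b ∈ f a := by
    intro a n b hb
    simp only [g, Option.mem_def, Option.bind_eq_some_iff] at hb
    obtain ⟨p, h1, h2⟩ := hb
    split_ifs at h2 with h3
    rw [Option.some.injEq] at h2
    rw [← h2]
    exact (eq (a, p.1)).2 ⟨_, h3⟩
  refine (Partrec.rfindOpt hg.to_comp).of_eq fun a => ?_
  ext b
  constructor
  · intro hb
    obtain ⟨n, hn⟩ := Nat.rfindOpt_spec hb
    exact hsound a n b hn
  · intro hb
    obtain ⟨n, hn⟩ := (eq (a, b)).1 hb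
    have h1 : (Nat.rfindOpt (g a)).Dom := by
      rw [Nat.rfindOpt_dom]
      refine ⟨encode (b, n), b, ?_⟩
      simp only [g, encodek, Option.mem_def, Option.bind_some]
      rw [if_pos hn]
    obtain ⟨b', hb'⟩ := Part.dom_iff_mem.1 h1
    obtain ⟨n', hn'⟩ := Nat.rfindOpt_spec hb'
    have h2 := hsound a n' b' hn'
    rw [Part.mem_unique hb h2]
    exact hb'

end gen

theorem IsUniversal.machine {U : List Bool →. List Bool} (hU : IsUniversal U)
    {R : List Bool → List Bool → Prop} (hS : S1 fun x : List Bool × List Bool => R x.1 x.2)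
    (hpf : ∀ σ τ y z, R σ y → R τ z → σ <+: τ → σ = τ ∧ y = z) :
    ∃ c, ∀ σ y, R σ y → KU U y ≤ σ.length + c := by
  have hfun : ∀ σ y z, R σ y → R σ z → y = z := fun σ y z h1 h2 =>
    (hpf σ σ y z h1 h2 List.prefix_rfl).2
  have hmem : ∀ σ y, y ∈ partOf R σ ↔ R σ y := fun σ y => mem_partOf (fun b b' => hfun σ b b')
  have hM : IsMachine (partOf R) := by
    refine ⟨partrec_of_s1 (hS.of_eq fun x => (hmem _ _).symm), ?_⟩
    intro σ τ h1 h2 h3
    obtain ⟨y, hy⟩ := Part.dom_iff_mem.1 h1
    obtain ⟨z, hz⟩ := Part.dom_iff_mem.1 h2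
    exact (hpf σ τ y z ((hmem _ _).1 hy) ((hmem _ _).1 hz) h3).1
  obtain ⟨c, hc⟩ := hU.2 _ hM
  refine ⟨c, fun σ y h => ?_⟩
  obtain ⟨τ, h1, h2⟩ := hc σ y ((hmem _ _).2 h)
  exact (KU_le h2).trans h1

theorem kc_prim {P : ℕ × List Bool → Prop} (hP : PrimrecPred P)
    (hw : ∑' x : {x // P x}, (1 / 2 : ℝ≥0∞) ^ x.1.1 ≤ 1) {U : List Bool →. List Bool}
    (hU : IsUniversal U) : ∃ c, ∀ r y, P (r, y) → KU U y ≤ r + c := by
  classical
  let req : ℕ → Option (ℕ × List Bool) := fun i => (decode₂ (ℕ × List Bool) i).bind fun x =>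
    if P x then some x else none
  have hreq : Primrec req := by
    refine Primrec.option_bind Primrec.decode₂ ?_
    exact Primrec.ite (hP.comp Primrec.snd) (Primrec.option_some.comp Primrec.snd)
      (Primrec.const none)
  have hr1 : ∀ x, P x → req (encode x) = some x := by
    intro x hx
    simp only [req]
    rw [Encodable.decode₂_encode]
    simp [hx]
  have hr2 : ∀ i x, req i = some x → i = encode x ∧ P x := by
    intro i x h
    simp only [req, Option.bind_eq_some_iff] at h
    obtain ⟨y, h1, h2⟩ := h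
    split_ifs at h2 with h3
    rw [Option.some.injEq] at h2
    rw [← h2]
    exact ⟨(mem_decode₂.1 h1).symm, h3⟩
  let g : ℕ → ℝ≥0∞ := fun i => (req i).elim 0 fun p => (1 / 2) ^ p.1
  have hgw : ∀ i, g i = ENNReal.ofReal (KC.wr req i) := by
    intro i
    simp only [g, KC.wr]
    cases req i with
    | none => simp
    | some p =>
      simp only [Option.elim]
      rw [ENNReal.ofReal_pow (by norm_num)]
      congr 1
      rw [ENNReal.ofReal_div_of_pos (by norm_num)]
      simp
  have hg : ∑' i, g i ≤ 1 := by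
    have hinj : Function.Injective (fun x : {x // P x} => encode x.1) := fun x y h =>
      Subtype.ext (encode_injective h)
    have h1 : Function.support g ⊆ Set.range (fun x : {x // P x} => encode x.1) := by
      intro i hi
      simp only [Function.mem_support, g] at hi
      cases hr : req i with
      | none => rw [hr] at hi; exact absurd rfl hi
      | some x =>
        obtain ⟨h2, h3⟩ := hr2 i x hr
        exact ⟨⟨x, h3⟩, h2.symm⟩
    rw [← hinj.tsum_eq h1]
    refine le_trans (le_of_eq ?_) hw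
    refine tsum_congr fun x => ?_
    simp only [g, hr1 x.1 x.2, Option.elim]
  have hb : ∀ n, ∑ i ∈ Finset.range n, KC.wr req i ≤ 1 := by
    intro n
    have hnn : ∀ i, 0 ≤ KC.wr req i := by
      intro i
      unfold KC.wr
      cases req i with
      | none => simp
      | some p => simp only [Option.elim]; positivity
    have h1 : ENNReal.ofReal (∑ i ∈ Finset.range n, KC.wr req i) ≤ 1 := by
      rw [ENNReal.ofReal_sum_of_nonneg fun i _ => hnn i]
      simp only [← hgw]
      exact (ENNReal.sum_le_tsum _).trans hg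
    have h2 := (ENNReal.ofReal_le_one).1 h1
    exact h2
  obtain ⟨M, hM1, hM2, hM3⟩ := KC.kraft_chaitin hreq hb
  obtain ⟨c, hc⟩ := hU.2 M ⟨hM1, hM2⟩
  refine ⟨c, fun r y h => ?_⟩
  obtain ⟨τ, h1, h2⟩ := hM3 _ r y (hr1 (r, y) h)
  obtain ⟨τ', h3, h4⟩ := hc τ y h2
  exact (KU_le h4).trans (by omega)

/-- Levin-Schnorr, the direction used here: a sequence that is not random has unbounded
deficiency. -/
theorem exists_deficient {U : List Bool →. List Bool} (hU : IsUniversal U) {X : ℕ → Bool}
    (hX : ¬ MLRandom X) (b : ℕ) : ∃ n, KU U (pre X n) + b ≤ n := by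
  classical
  unfold MLRandom at hX
  push Not at hX
  obtain ⟨W, hW, hm, hX⟩ := hX
  obtain ⟨Q, hQ, mQ, eQ⟩ := S1.of_re hW
  let I : ℕ × List Bool → Prop := fun x => ∃ j < x.2.length + 1, Q (x.1, x.2.take j) x.2.length
  have hI : PrimrecPred I := by
    refine PP.ex_lt (α := ℕ × List Bool) (f := fun x => x.2.length + 1)
      (p := fun x j => Q (x.1, x.2.take j) x.2.length) ?_
      (Primrec.succ.comp (Primrec.list_length.comp Primrec.snd))
    exact hQ.comp ((Primrec.fst.comp Primrec.fst).pair (Primrec.list_take.comp Primrec.snd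
      (Primrec.snd.comp Primrec.fst))) (Primrec.list_length.comp (Primrec.snd.comp Primrec.fst))
  let G : ℕ × List Bool → Prop := fun x => I x ∧ ∀ i < x.2.length, ¬ I (x.1, x.2.take i)
  have hG : PrimrecPred G := by
    refine PrimrecPred.and hI ?_
    refine PP.all_lt (α := ℕ × List Bool) (f := fun x => x.2.length)
      (p := fun x i => ¬ I (x.1, x.2.take i)) ?_ (Primrec.list_length.comp Primrec.snd)
    refine PrimrecPred.not (hI.comp ((Primrec.fst.comp Primrec.fst).pair
      (Primrec.list_take.comp Primrec.snd (Primrec.snd.comp Primrec.fst))))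
  -- the antichain generates a subset of the open set
  have hGsub : ∀ n ζ, G (n, ζ) → cyl ζ ⊆ ⋃ σ ∈ {σ : List Bool | (n, σ) ∈ W}, cyl σ := by
    intro n ζ h Y hY
    obtain ⟨⟨j, hj, h1⟩, -⟩ := h
    simp only [Set.mem_iUnion, Set.mem_ofPred_eq, exists_prop]
    exact ⟨ζ.take j, (eQ _).2 ⟨_, h1⟩, cyl_subset (List.take_prefix j ζ) hY⟩
  have hGpf : ∀ n ζ ζ', G (n, ζ) → G (n, ζ') → ζ <+: ζ' → ζ = ζ' := by
    intro n ζ ζ' h1 h2 h3
    by_contra hne
    have hlt : ζ.length < ζ'.length := by
      rcases h3.length_le.lt_or_eq with h | h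
      · exact h
      · exact absurd (h3.eq_of_length h) hne
    have := h2.2 ζ.length hlt
    simp only at this
    rw [← List.prefix_iff_eq_take.1 h3] at this
    exact this h1.1
  have hGm : ∀ n, ∑' ζ : {ζ // G (n, ζ)}, (1 / 2 : ℝ≥0∞) ^ ζ.1.length ≤ (1 / 2) ^ n := by
    intro n
    refine le_trans ?_ (hm n)
    have h1 : ∀ ζ : {ζ // G (n, ζ)}, (1 / 2 : ℝ≥0∞) ^ ζ.1.length = lam (cyl ζ.1) :=
      fun ζ => (lam_cyl _).symm
    simp only [h1]
    rw [← measure_iUnion]
    · exact measure_mono (Set.iUnion_subset fun ζ => hGsub n ζ.1 ζ.2)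
    · intro ζ ζ' hne
      rw [Function.onFun, Set.disjoint_left]
      intro Y h3 h4
      apply hne
      apply Subtype.ext
      rw [mem_cyl_iff] at h3 h4
      rcases Nat.le_total ζ.1.length ζ'.1.length with h | h
      · refine hGpf n _ _ ζ.2 ζ'.2 ?_
        rw [← h3, ← h4]
        exact pre_prefix Y h
      · refine (hGpf n _ _ ζ'.2 ζ.2 ?_).symm
        rw [← h3, ← h4]
        exact pre_prefix Y h
    · exact fun ζ => measurableSet_cyl ζ.1
  have hGX : ∀ n, ∃ t, G (n, pre X t) := by
    intro n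
    obtain ⟨σ, h1, h2⟩ := hX n
    obtain ⟨s, hs⟩ := (eQ _).1 h1
    have h3 : ∃ t, I (n, pre X t) := by
      refine ⟨σ.length + s, σ.length, by simp, ?_⟩
      simp only [length_pre]
      rw [take_pre X _ _ (by omega), mem_cyl_iff.1 h2]
      exact mQ _ _ _ (by omega) hs
    refine ⟨Nat.find h3, Nat.find_spec h3, fun i hi => ?_⟩
    simp only [length_pre] at hi ⊢
    rw [take_pre X _ _ hi.le]
    exact Nat.find_min h3 hi
  -- the requests
  let P : ℕ × List Bool → Prop := fun x => x.1 ≤ x.2.length ∧ G (2 * (x.2.length - x.1) + 2, x.2)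
  have hP : PrimrecPred P := by
    refine PrimrecPred.and (Primrec.nat_le.comp Primrec.fst (Primrec.list_length.comp Primrec.snd))
      (hG.comp (Primrec.pair ?_ Primrec.snd))
    exact Primrec.succ.comp (Primrec.succ.comp (Primrec.nat_mul.comp (Primrec.const 2)
      (Primrec.nat_sub.comp (Primrec.list_length.comp Primrec.snd) Primrec.fst)))
  have hw : ∑' x : {x // P x}, (1 / 2 : ℝ≥0∞) ^ x.1.1 ≤ 1 := by
    let w : (Σ n : ℕ, {ζ // G (2 * n + 2, ζ)}) → ℝ≥0∞ := fun y => 2 ^ y.1 * (1 / 2) ^ y.2.1.length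
    let e : {x // P x} → (Σ n : ℕ, {ζ // G (2 * n + 2, ζ)}) := fun x =>
      ⟨x.1.2.length - x.1.1, ⟨x.1.2, x.2.2⟩⟩
    have he : Function.Injective e := by
      rintro ⟨⟨r, y⟩, h1, h1'⟩ ⟨⟨r', y'⟩, h2, h2'⟩ h
      simp only [e, Sigma.mk.injEq] at h
      obtain ⟨h3, h4⟩ := h
      simp only at h1 h2 h3
      have h5 : y = y' := by
        have : ∀ (a b : ℕ) (hab : a = b) (u : {ζ // G (2 * a + 2, ζ)}) (v : {ζ // G (2 * b + 2, ζ)}),
            HEq u v → u.1 = v.1 := by
          rintro a b rfl u v h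
          rw [eq_of_heq h]
        exact this _ _ h3 _ _ h4
      subst h5
      have : r = r' := by omega
      subst this
      rfl
    have hwe : ∀ x : {x // P x}, (1 / 2 : ℝ≥0∞) ^ x.1.1 = w (e x) := by
      rintro ⟨⟨r, y⟩, h1, h1'⟩
      simp only [w, e]
      simp only at h1
      have h2 : y.length = (y.length - r) + r := by omega
      conv_rhs => rw [h2]
      rw [Nat.add_sub_cancel, pow_add, ← mul_assoc, ← mul_pow]
      rw [one_div, ENNReal.mul_inv_cancel (by norm_num) (by norm_num), one_pow, one_mul]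
    calc ∑' x : {x // P x}, (1 / 2 : ℝ≥0∞) ^ x.1.1 = ∑' x : {x // P x}, w (e x) := tsum_congr hwe
      _ ≤ ∑' y, w y := ENNReal.tsum_comp_le_tsum_of_injective he w
      _ = ∑' n : ℕ, ∑' ζ : {ζ // G (2 * n + 2, ζ)}, 2 ^ n * (1 / 2 : ℝ≥0∞) ^ ζ.1.length :=
          ENNReal.tsum_sigma' w
      _ ≤ ∑' n : ℕ, (1 / 2 : ℝ≥0∞) ^ (n + 1) := by
          refine ENNReal.tsum_le_tsum fun n => ?_
          rw [ENNReal.tsum_mul_left]
          refine (mul_le_mul' le_rfl (hGm _)).trans ?_
          have h3 : (1 / 2 : ℝ≥0∞) ^ (2 * n + 2) = (1 / 2) ^ n * (1 / 2) ^ (n + 2) := by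
            rw [← pow_add]; congr 1; ring
          rw [h3, ← mul_assoc, ← mul_pow, one_div, ENNReal.mul_inv_cancel (by norm_num) (by norm_num),
            one_pow, one_mul]
          exact pow_le_pow_right_of_le_one' (by simp) (by omega)
      _ ≤ 1 := by
          rw [ENNReal.tsum_geometric_add_one, one_div, ENNReal.one_sub_inv_two, inv_inv,
            ENNReal.inv_mul_cancel (by norm_num) (by norm_num)]
  obtain ⟨c, hc⟩ := kc_prim hP hw hU
  obtain ⟨t, ht⟩ := hGX (2 * (b + c) + 2)
  refine ⟨t, ?_⟩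
  -- the generator is long
  have hlen : b + c ≤ t := by
    have h1 : (1 / 2 : ℝ≥0∞) ^ t ≤ (1 / 2) ^ (2 * (b + c) + 2) := by
      have h2 := (ENNReal.le_tsum (f := fun ζ : {ζ // G (2 * (b + c) + 2, ζ)} =>
        (1 / 2 : ℝ≥0∞) ^ ζ.1.length) ⟨pre X t, ht⟩).trans (hGm _)
      simpa using h2
    by_contra hlt
    rw [half_pow_eq, half_pow_eq, dyadic_le_iff, one_mul, one_mul,
      Nat.pow_le_pow_iff_right (by norm_num)] at h1
    omega
  have h1 := hc (t - (b + c)) (pre X t) (by
    refine ⟨by simp, ?_⟩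
    simp only [length_pre]
    have h2 : t - (t - (b + c)) = b + c := by omega
    rw [h2]
    exact ht)
  omega

end Pool.Agent.Helper227
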