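import Pool.Agent.Helper227.CD.Label

set_option autoImplicit false

namespace Pool.Agent.Helper227

open Encodable MeasureTheory
open scoped ENNReal NNReal
open Nat.Partrec (Code)

namespace CD

section

/-- the functional given by `Ψ` outputs at least `τ` on oracle strings extending `σ` -/
def Phi (Ψ : List Bool × ℕ × Bool → Prop) (σ τ : List Bool) : Prop :=
  ∀ i < τ.length, Ψ (σ, i, τ.getD i false)

/-- mass above `u` in a list of weighted strings -/
def mA (A : List (List Bool × ℕ)) (u : List Bool) : ℕ :=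
  ((A.filter fun x => x.1.take u.length = u).map Prod.snd).sum

/-- certificates -/
def Cert (h : ℕ → ℕ) (Ψ : List Bool × ℕ × Bool → Prop) (ρ0 : List Bool) (M : ℕ)
    (F : List (List Bool)) (L Q n : ℕ) (A : List (List Bool × ℕ)) : Prop :=
  ((∀ τ ∈ F, τ.length = n) ∧ F.length * 2 ^ M ≤ 4 * 2 ^ n) ∧
  (∀ x ∈ A, x.2 = 0 ∨ ((x.1.length = L ∧ x.1.take ρ0.length = ρ0) ∧ ∃ τ ∈ F, Phi Ψ x.1 τ)) ∧
  (∀ j < L + 1, ∀ u ∈ allStr j, u.take ρ0.length = ρ0 → mA A u * 2 ^ j ≤ 2 ^ h j * 2 ^ Q) ∧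
  2 ^ h ρ0.length * 2 ^ Q ≤ 8 * mA A ρ0 * 2 ^ ρ0.length

variable {h : ℕ → ℕ} {Ψ : List Bool × ℕ × Bool → Prop} {ρ0 : List Bool}

theorem mA_cons (x : List Bool × ℕ) (A : List (List Bool × ℕ)) (u : List Bool) :
    mA (x :: A) u = (if x.1.take u.length = u then x.2 else 0) + mA A u := by
  unfold mA
  rw [List.filter_cons]
  split_ifs with h1 h2 h2
  · simp
  · simp_all
  · simp_all
  · simp

theorem take_eq_iff {u w : List Bool} : w.take u.length = u ↔ u <+: w := by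
  constructor
  · intro h
    rw [← h]
    exact List.take_prefix _ _
  · intro h
    exact (List.prefix_iff_eq_take.1 h).symm

open Classical in
theorem mass_split (S : Set (List Bool)) (L : ℕ) (A : List (List Bool × ℕ))
    (hA : ∀ x ∈ A, x.2 = 0 ∨ (x.1.length = L ∧ ρ0 <+: x.1 ∧
      ((∃ u ∈ S, ρ0 <+: u ∧ u <+: x.1) ∨ (wt h x.1 : ℝ≥0∞) ≤ WS h S x.1))) :
    (mA A ρ0 : ℝ≥0∞) ≤ (∑' u : List Bool, if u ∈ S ∧ ρ0 <+: u then (mA A u : ℝ≥0∞) else 0) +
      ∑ w ∈ ext ρ0 L, if (wt h w : ℝ≥0∞) ≤ WS h S w then (mA A w : ℝ≥0∞) else 0 := by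
  induction A with
  | nil => simp [mA]
  | cons x A ih =>
    have ih' := ih fun y hy => hA y (List.mem_cons_of_mem _ hy)
    have e1 : (∑' u : List Bool, if u ∈ S ∧ ρ0 <+: u then (mA (x :: A) u : ℝ≥0∞) else 0) =
        (∑' u : List Bool, if u ∈ S ∧ ρ0 <+: u then (((if x.1.take u.length = u then x.2 else 0 : ℕ)) : ℝ≥0∞) else 0) +
        (∑' u : List Bool, if u ∈ S ∧ ρ0 <+: u then (mA A u : ℝ≥0∞) else 0) := by
      rw [← ENNReal.tsum_add]
      refine tsum_congr fun u => ?_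
      by_cases h1 : u ∈ S ∧ ρ0 <+: u
      · rw [if_pos h1, if_pos h1, if_pos h1, mA_cons, Nat.cast_add]
      · rw [if_neg h1, if_neg h1, if_neg h1, add_zero]
    have e2 : (∑ w ∈ ext ρ0 L, if (wt h w : ℝ≥0∞) ≤ WS h S w then (mA (x :: A) w : ℝ≥0∞) else 0) =
        (∑ w ∈ ext ρ0 L, if (wt h w : ℝ≥0∞) ≤ WS h S w then
          (((if x.1.take w.length = w then x.2 else 0 : ℕ)) : ℝ≥0∞) else 0) +
        ∑ w ∈ ext ρ0 L, if (wt h w : ℝ≥0∞) ≤ WS h S w then (mA A w : ℝ≥0∞) else 0 := by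
      rw [← Finset.sum_add_distrib]
      refine Finset.sum_congr rfl fun u _ => ?_
      by_cases h1 : (wt h u : ℝ≥0∞) ≤ WS h S u
      · rw [if_pos h1, if_pos h1, if_pos h1, mA_cons, Nat.cast_add]
      · rw [if_neg h1, if_neg h1, if_neg h1, add_zero]
    rw [mA_cons, e1, e2, add_add_add_comm]
    push_cast
    refine add_le_add ?_ ih'
    rcases hA x List.mem_cons_self with h1 | ⟨h1, h2, h3⟩
    · rw [h1]; simp
    · have hx : (if x.1.take ρ0.length = ρ0 then (x.2 : ℝ≥0∞) else 0) ≤ x.2 := by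
        split_ifs
        · exact le_rfl
        · exact zero_le
      refine hx.trans ?_
      rcases h3 with ⟨u, hu1, hu2, hu3⟩ | h3
      · refine le_trans ?_ (le_add_of_nonneg_right zero_le)
        refine le_trans ?_ (ENNReal.le_tsum u)
        rw [if_pos ⟨hu1, hu2⟩, if_pos (take_eq_iff.2 hu3)]
      · refine le_trans ?_ (le_add_of_nonneg_left zero_le)
        refine le_trans ?_ (Finset.single_le_sum (f := fun w => if (wt h w : ℝ≥0∞) ≤ WS h S w then
          (if x.1.take w.length = w then (x.2 : ℝ≥0∞) else 0) else 0) (fun _ _ => zero_le)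
          (mem_ext.2 ⟨h1, h2⟩))
        rw [if_pos h3, if_pos (take_eq_iff.2 List.prefix_rfl)]

theorem mA_zero {L : ℕ} {A : List (List Bool × ℕ)} (hA : ∀ x ∈ A, x.2 = 0 ∨ x.1.length = L)
    {u : List Bool} (hu : L < u.length) : mA A u = 0 := by
  induction A with
  | nil => simp [mA]
  | cons x A ih =>
    rw [mA_cons, ih fun y hy => hA y (List.mem_cons_of_mem _ hy)]
    rcases hA x List.mem_cons_self with h1 | h1
    · rw [h1]; simp
    · rw [if_neg]
      intro h2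
      have := congrArg List.length h2
      rw [List.length_take] at this
      omega

theorem extend_cert {M : ℕ} {F : List (List Bool)} {L Q n : ℕ} {A : List (List Bool × ℕ)}
    (hc : Cert h Ψ ρ0 M F L Q n A) {S : Set (List Bool)} (hw : 64 * WS h S ρ0 ≤ wt h ρ0) :
    ∃ w, ρ0 <+: w ∧ (∀ u ∈ S, ρ0 <+: u → ¬ u <+: w) ∧ WS h S w < wt h w ∧
      ∃ τ ∈ F, Phi Ψ w τ := by
  classical
  obtain ⟨-, hA, hcap, htot⟩ := hc
  by_contra hcon
  push Not at hcon
  have h1 := mass_split (h := h) (ρ0 := ρ0) S L A (by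
    intro x hx
    rcases hA x hx with h1 | ⟨⟨h1, h2⟩, τ, h3, h4⟩
    · exact Or.inl h1
    · right
      refine ⟨h1, take_eq_iff.1 h2, ?_⟩
      by_contra h5
      push Not at h5
      exact hcon x.1 (take_eq_iff.1 h2) (fun u hu hu2 => h5.1 u hu hu2) h5.2 τ h3 h4)
  have hmA : ∀ u, ρ0 <+: u → (mA A u : ℝ≥0∞) ≤ 2 ^ Q * wt h u := by
    intro u hu
    rcases Nat.lt_or_ge L u.length with h2 | h2
    · rw [mA_zero (fun x hx => (hA x hx).imp_right fun h => h.1.1) h2]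
      simp
    · have h3 := hcap u.length (by omega) u (mem_allStr.2 rfl) (take_eq_iff.2 hu)
      unfold wt
      rw [ENNReal.coe_div (by positivity)]
      push_cast
      rw [← mul_div_assoc, ENNReal.le_div_iff_mul_le (Or.inl (by positivity))
        (Or.inl (by finiteness)), mul_comm (2 ^ Q : ℝ≥0∞)]
      exact_mod_cast h3
  have h2 : (mA A ρ0 : ℝ≥0∞) ≤ 2 ^ Q * (2 * WS h S ρ0) := by
    refine h1.trans ?_
    have h3 : (∑' u : List Bool, if u ∈ S ∧ ρ0 <+: u then (mA A u : ℝ≥0∞) else 0) ≤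
        2 ^ Q * WS h S ρ0 := by
      unfold WS
      rw [← ENNReal.tsum_mul_left]
      refine ENNReal.tsum_le_tsum fun u => ?_
      split_ifs with h4
      · exact hmA u h4.2
      · exact zero_le
    have h5 : (∑ w ∈ ext ρ0 L, if (wt h w : ℝ≥0∞) ≤ WS h S w then (mA A w : ℝ≥0∞) else 0) ≤
        2 ^ Q * WS h S ρ0 := by
      refine le_trans ?_ (mul_le_mul' le_rfl (sum_WS_le (h := h) S ρ0 L))
      rw [Finset.mul_sum]
      refine Finset.sum_le_sum fun w hw => ?_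
      split_ifs with h6
      · exact (hmA w (mem_ext.1 hw).2).trans (mul_le_mul' le_rfl h6)
      · exact zero_le
    calc _ ≤ 2 ^ Q * WS h S ρ0 + 2 ^ Q * WS h S ρ0 := add_le_add h3 h5
      _ = _ := by ring
  have h3 : (2 : ℝ≥0∞) ^ Q * wt h ρ0 ≤ 8 * mA A ρ0 := by
    unfold wt
    rw [ENNReal.coe_div (by positivity)]
    push_cast
    rw [← mul_div_assoc, ENNReal.div_le_iff (by positivity) (by finiteness), mul_comm (2 ^ Q : ℝ≥0∞)]
    exact_mod_cast htot
  have h4 : (2 : ℝ≥0∞) ^ Q * wt h ρ0 ≤ 2 ^ Q * (16 * WS h S ρ0) := by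
    calc (2 : ℝ≥0∞) ^ Q * wt h ρ0 ≤ 8 * mA A ρ0 := h3
      _ ≤ 8 * (2 ^ Q * (2 * WS h S ρ0)) := by gcongr
      _ = _ := by ring
  rw [ENNReal.mul_le_mul_iff_right (by positivity) (by finiteness)] at h4
  -- contradiction
  have hWt : WS h S ρ0 ≠ ∞ := by
    intro h5
    rw [h5] at hw
    simp at hw
  have h5 : 4 * (wt h ρ0 : ℝ≥0∞) ≤ wt h ρ0 := by
    calc 4 * (wt h ρ0 : ℝ≥0∞) ≤ 4 * (16 * WS h S ρ0) := by gcongr
      _ = 64 * WS h S ρ0 := by ring
      _ ≤ wt h ρ0 := hw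
  have h6 : 4 * wt h ρ0 ≤ wt h ρ0 := by exact_mod_cast h5
  have h7 := wt_pos (h := h) ρ0
  have h8 : (4 : ℝ) * wt h ρ0 ≤ wt h ρ0 := by exact_mod_cast h6
  have h9 : (0 : ℝ) < wt h ρ0 := by exact_mod_cast h7
  linarith

end

end CD

end Pool.Agent.Helper227
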