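import Pool.Agent.Helper227.CD.Cert

set_option autoImplicit false

namespace Pool.Agent.Helper227

open Encodable MeasureTheory
open scoped ENNReal NNReal
open Nat.Partrec (Code)

namespace CD

section

/-- the functional outputs at least `n` bits -/
def Dn (Ψ : List Bool × ℕ × Bool → Prop) (n : ℕ) (σ : List Bool) : Prop :=
  ∃ τ : List Bool, τ.length = n ∧ Phi Ψ σ τ

/-- monotonicity in the oracle string -/
def MonoF (Ψ : List Bool × ℕ × Bool → Prop) : Prop :=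
  ∀ σ σ' i b, σ <+: σ' → Ψ (σ, i, b) → Ψ (σ', i, b)

variable {h : ℕ → ℕ} {Ψ : List Bool × ℕ × Bool → Prop} {ρ0 : List Bool}

theorem Phi_mono (hΨ : MonoF Ψ) {σ σ' τ : List Bool} (hσ : σ <+: σ') (hp : Phi Ψ σ τ) :
    Phi Ψ σ' τ := fun i hi => hΨ _ _ _ _ hσ (hp i hi)

theorem Dn_mono (hΨ : MonoF Ψ) (n : ℕ) : ∀ σ σ', σ <+: σ' → Dn Ψ n σ → Dn Ψ n σ' := by
  rintro σ σ' hσ ⟨τ, h1, h2⟩
  exact ⟨τ, h1, Phi_mono hΨ hσ h2⟩

theorem mA_map (a : List Bool → ℕ) (L : ℕ) (u : List Bool) :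
    mA ((allStr L).map fun w => (w, a w)) u = ∑ w ∈ ext u L, a w := by
  classical
  unfold mA
  have h1 : (((allStr L).map fun w => (w, a w)).filter fun x => x.1.take u.length = u) =
      ((allStr L).filter fun w => w.take u.length = u).map fun w => (w, a w) := by
    rw [List.filter_map]
    rfl
  rw [h1, List.map_map]
  have h2 : (Prod.snd ∘ fun w : List Bool => (w, a w)) = a := by funext w; rfl
  rw [h2, ← List.sum_toFinset _ ((nodup_allStr L).filter _)]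
  refine Finset.sum_congr ?_ fun _ _ => rfl
  ext w
  rw [mem_ext, List.mem_toFinset, List.mem_filter, mem_allStr, decide_eq_true_eq, take_eq_iff]

theorem exists_cert (hm : Monotone h) (hu : ∀ b, ∃ n, b ≤ h n) (hΨ : MonoF Ψ)
    {S : Set (List Bool)} (hw : 64 * WS h S ρ0 ≤ wt h ρ0)
    (hcase : ∀ n ρ, ρ0 <+: ρ → Good h S ρ0 (1 / 4) ρ → ∃ k, wt h ρ ≤ 2 * cost h (Dn Ψ n) k ρ)
    (M : ℕ) : ∃ F L Q n A, Cert h Ψ ρ0 M F L Q n A := by
  classical
  obtain ⟨r, hr⟩ : ∃ r, r = ρ0.length := ⟨_, rfl⟩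
  obtain ⟨k0, hk0⟩ := hu (M + h ρ0.length)
  obtain ⟨k, hk⟩ : ∃ k, k = max k0 r := ⟨_, rfl⟩
  have hkr : r ≤ k := by omega
  have hkM : M + h ρ0.length ≤ h k := hk0.trans (hm (by omega))
  obtain ⟨n, hn⟩ : ∃ n, n = 2 * k + 3 * M + 8 := ⟨_, rfl⟩
  obtain ⟨G, hG⟩ : ∃ G : Finset (List Bool), G = (ext ρ0 k).filter fun ρ => Good h S ρ0 (1 / 4) ρ :=
    ⟨_, rfl⟩
  have hGc : 2 ^ (k - ρ0.length) ≤ 2 * G.card := by
    rw [hG]; exact half_good hm (hr ▸ hkr) hw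
  -- common number of levels
  obtain ⟨K, hK⟩ : ∃ K, ∀ ρ ∈ G, wt h ρ ≤ 2 * cost h (Dn Ψ n) K ρ := by
    have h1 : ∀ ρ : List Bool, ∃ k', ρ ∈ G → wt h ρ ≤ 2 * cost h (Dn Ψ n) k' ρ := by
      intro ρ
      by_cases hρ : ρ ∈ G
      · have hρ' := hρ
        rw [hG, Finset.mem_filter] at hρ'
        obtain ⟨k', hk'⟩ := hcase n ρ (mem_ext.1 hρ'.1).2 hρ'.2
        exact ⟨k', fun _ => hk'⟩
      · exact ⟨0, fun h => absurd h hρ⟩
    choose f hf using h1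
    refine ⟨G.sup f, fun ρ hρ => (hf ρ hρ).trans ?_⟩
    gcongr
    exact cost_mono hm (Dn_mono hΨ n) ρ (Finset.le_sup hρ)
  obtain ⟨L, hL⟩ : ∃ L, L = k + K := ⟨_, rfl⟩
  have hfl : ∀ ρ : List Bool, ∃ f, ρ ∈ G → IsFl h (Dn Ψ n) f L ρ ∧ Ms f L ρ = wt h ρ / 2 := by
    intro ρ
    by_cases hρ : ρ ∈ G
    · have hρ' := hρ
      rw [hG, Finset.mem_filter, mem_ext] at hρ'
      obtain ⟨f, h1, h2⟩ := exists_fl' (h := h) (D := Dn Ψ n) (k := K) (v := ρ) (L := L)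
        (by rw [hL, hρ'.1.1]) (t := wt h ρ / 2) (by
          rw [div_le_iff₀ (by norm_num), mul_comm]
          exact hK ρ hρ)
      exact ⟨f, fun _ => ⟨h1, h2⟩⟩
    · exact ⟨fun _ => 0, fun h => absurd h hρ⟩
  choose f hf using hfl
  obtain ⟨s, hs⟩ : ∃ s : ℝ≥0, s = 2 ^ h ρ0.length / 2 ^ h k := ⟨_, rfl⟩
  obtain ⟨φ, hφ⟩ : ∃ φ : List Bool → ℝ≥0, φ = fun w => if w.take k ∈ G then s * f (w.take k) w else 0 :=
    ⟨_, rfl⟩
  have hGsub : G ⊆ ext ρ0 k := by rw [hG]; exact Finset.filter_subset _ _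
  have hφnz : ∀ w, φ w ≠ 0 → w.take k ∈ G ∧ f (w.take k) w ≠ 0 := by
    intro w hw
    rw [hφ] at hw
    simp only at hw
    split_ifs at hw with h1
    · exact ⟨h1, fun h2 => hw (by rw [h2, mul_zero])⟩
    · exact absurd rfl hw
  have hφw : ∀ w, φ w ≠ 0 → w.length = L ∧ ρ0 <+: w ∧ Dn Ψ n w := by
    intro w hw
    obtain ⟨h1, h2⟩ := hφnz w hw
    obtain ⟨h3, h4, h5⟩ := (hf _ h1).1.1 w h2
    exact ⟨h3, (mem_ext.1 (hGsub h1)).2.trans h4, h5⟩
  -- mass above a string of length at least `k`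
  have hMs : ∀ u, k ≤ u.length → Ms φ L u = if u.take k ∈ G then s * Ms (f (u.take k)) L u else 0 := by
    intro u hu
    unfold Ms
    split_ifs with h1
    · rw [Finset.mul_sum]
      refine Finset.sum_congr rfl fun w hw => ?_
      have h2 : w.take k = u.take k := by
        have h3 := (List.prefix_iff_eq_take.1 (mem_ext.1 hw).2)
        rw [h3, List.take_take, min_eq_left hu]
      rw [hφ]
      simp only
      rw [h2, if_pos h1]
    · refine Finset.sum_eq_zero fun w hw => ?_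
      have h2 : w.take k = u.take k := by
        have h3 := (List.prefix_iff_eq_take.1 (mem_ext.1 hw).2)
        rw [h3, List.take_take, min_eq_left hu]
      rw [hφ]
      simp only
      rw [h2, if_neg h1]
  have hφ1 : ∀ u, ρ0 <+: u → k ≤ u.length → 2 ^ M * Ms φ L u ≤ wt h u := by
    intro u hu0 hu
    rw [hMs u hu]
    split_ifs with h1
    · have h2 := (hf _ h1).1.2 u (List.take_prefix _ _)
      have h3 : (2 : ℝ≥0) ^ M * s ≤ 1 := by
        rw [hs, ← mul_div_assoc, ← pow_add]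
        exact div_le_one_of_le₀ (pow_le_pow_right₀ (by norm_num) hkM) zero_le
      calc 2 ^ M * (s * Ms (f (u.take k)) L u) = (2 ^ M * s) * Ms (f (u.take k)) L u := by ring
        _ ≤ 1 * wt h u := by gcongr
        _ = wt h u := one_mul _
    · simp
  have hφ2 : ∀ ρ ∈ ext ρ0 k, (Ms φ L ρ : ℝ) =
      if ρ ∈ G then 2 ^ h ρ0.length / 2 ^ (k + 1) else 0 := by
    intro ρ hρ
    have hl := (mem_ext.1 hρ).1
    rw [hMs ρ hl.ge, List.take_of_length_le hl.le]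
    split_ifs with h1
    · rw [(hf ρ h1).2, hs]
      unfold wt
      rw [hl]
      push_cast
      rw [pow_succ]
      field_simp
    · simp
  -- labels
  have hlab : ∀ w : List Bool, ∃ τ : List Bool, Dn Ψ n w → τ.length = n ∧ Phi Ψ w τ := by
    intro w
    by_cases h1 : Dn Ψ n w
    · obtain ⟨τ, h2⟩ := h1
      exact ⟨τ, fun _ => h2⟩
    · exact ⟨[], fun h => absurd h h1⟩
  choose ℓ hℓ using hlab
  obtain ⟨F, hF1, hF2, ψ, hψ1, hψ2, hψ3⟩ := label (M := M) (n := n) hm (hr ▸ hkr) (by omega : k ≤ L)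
    hGsub hGc hφ1 hφ2 (ℓ := ℓ) (fun w hw => (hℓ w (hφw w hw).2.2).1) (by omega)
  -- rounding
  obtain ⟨Q, hQ⟩ : ∃ Q, Q = L + r + 4 := ⟨_, rfl⟩
  obtain ⟨a, ha⟩ : ∃ a : List Bool → ℕ, a = fun w => ⌊(ψ w : ℝ) * 2 ^ Q⌋₊ := ⟨_, rfl⟩
  refine ⟨F.toList, L, Q, n, (allStr L).map fun w => (w, a w), ⟨?_, ?_⟩, ?_, ?_, ?_⟩
  · intro τ hτ
    exact hF1 τ (Finset.mem_toList.1 hτ)
  · rw [Finset.length_toList]
    exact hF2
  · intro x hx
    rw [List.mem_map] at hx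
    obtain ⟨w, hw1, rfl⟩ := hx
    by_cases h1 : a w = 0
    · exact Or.inl h1
    · right
      have h2 : ψ w ≠ 0 := by
        intro h3
        apply h1
        rw [ha]
        simp [h3]
      obtain ⟨h3, h4⟩ := hψ1 w h2
      obtain ⟨h5, h6, h7⟩ := hφw w h3
      exact ⟨⟨h5, take_eq_iff.2 h6⟩, ℓ w, Finset.mem_toList.2 h4, (hℓ w h7).2⟩
  · intro j hj u hu hu0
    rw [mA_map]
    have h1 := hψ2 u (take_eq_iff.1 hu0)
    rw [← NNReal.coe_le_coe, wt_real, mem_allStr.1 hu] at h1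
    have h2 : ((∑ w ∈ ext u L, a w : ℕ) : ℝ) ≤ Ms ψ L u * 2 ^ Q := by
      unfold Ms
      push_cast
      rw [Finset.sum_mul]
      refine Finset.sum_le_sum fun w _ => ?_
      rw [ha]
      exact Nat.floor_le (by positivity)
    have h3 : ((∑ w ∈ ext u L, a w : ℕ) : ℝ) * 2 ^ j ≤ 2 ^ h j * 2 ^ Q := by
      calc ((∑ w ∈ ext u L, a w : ℕ) : ℝ) * 2 ^ j ≤ Ms ψ L u * 2 ^ Q * 2 ^ j := by gcongr
        _ ≤ 2 ^ h j / 2 ^ j * 2 ^ Q * 2 ^ j := by gcongr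
        _ = 2 ^ h j * 2 ^ Q := by field_simp
    exact_mod_cast h3
  · rw [mA_map]
    have h2 : (Ms ψ L ρ0 : ℝ) * 2 ^ Q - 2 ^ L ≤ ((∑ w ∈ ext ρ0 L, a w : ℕ) : ℝ) := by
      unfold Ms
      push_cast
      rw [Finset.sum_mul]
      have h3 : ∀ w ∈ ext ρ0 L, (ψ w : ℝ) * 2 ^ Q - 1 ≤ a w := by
        intro w _
        rw [ha]
        have := Nat.lt_floor_add_one ((ψ w : ℝ) * 2 ^ Q)
        simp only
        linarith
      have h4 := Finset.sum_le_sum h3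
      rw [Finset.sum_sub_distrib, Finset.sum_const, nsmul_eq_mul, mul_one] at h4
      refine le_trans ?_ h4
      have h5 : ((ext ρ0 L).card : ℝ) ≤ 2 ^ L := by
        rw [card_ext (by omega)]
        push_cast
        exact pow_le_pow_right₀ (by norm_num) (by omega)
      linarith
    rw [wt_real] at hψ3
    have h6 : (2 : ℝ) ^ h ρ0.length * 2 ^ Q ≤ 8 * ((∑ w ∈ ext ρ0 L, a w : ℕ) : ℝ) * 2 ^ ρ0.length := by
      have h7 : 3 * (2 ^ h ρ0.length) ≤ 16 * (Ms ψ L ρ0 : ℝ) * 2 ^ ρ0.length := by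
        rw [← mul_div_assoc, div_le_iff₀ (by positivity)] at hψ3
        exact hψ3
      have h8 : (2 : ℝ) ^ L * 2 ^ ρ0.length * 16 = 2 ^ Q := by
        rw [hQ, hr, pow_add, pow_add]
        norm_num
      have h9 : (1 : ℝ) ≤ 2 ^ h ρ0.length := one_le_pow₀ (by norm_num)
      have h10 : (0 : ℝ) < 2 ^ Q := by positivity
      calc (2 : ℝ) ^ h ρ0.length * 2 ^ Q = (3 / 2) * (2 ^ h ρ0.length * 2 ^ Q) -
            (1 / 2) * (2 ^ h ρ0.length * 2 ^ Q) := by ring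
        _ ≤ (1 / 2) * (16 * (Ms ψ L ρ0 : ℝ) * 2 ^ ρ0.length * 2 ^ Q) - (1 / 2) * (1 * 2 ^ Q) := by
            have h11 : 3 * (2 ^ h ρ0.length) * 2 ^ Q ≤ 16 * (Ms ψ L ρ0 : ℝ) * 2 ^ ρ0.length * 2 ^ Q := by
              gcongr
            have h12 : (1 : ℝ) * 2 ^ Q ≤ 2 ^ h ρ0.length * 2 ^ Q := by gcongr
            linarith
        _ = 8 * ((Ms ψ L ρ0 : ℝ) * 2 ^ Q - 2 ^ L) * 2 ^ ρ0.length := by
            rw [← h8]; ring
        _ ≤ _ := by gcongr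
    exact_mod_cast h6

end

end CD

end Pool.Agent.Helper227
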