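import Pool.Agent.Helper227.CD.Wt

set_option autoImplicit false

namespace Pool.Agent.Helper227

open Encodable MeasureTheory
open scoped ENNReal NNReal

namespace CD

section

variable {h : ℕ → ℕ}

open Classical in
/-- truncated cost of covering `D` above a string -/
noncomputable def cost (h : ℕ → ℕ) (D : List Bool → Prop) : ℕ → List Bool → ℝ≥0
  | 0, v => if D v then wt h v else 0
  | k + 1, v => min (wt h v) (cost h D k (v ++ [false]) + cost h D k (v ++ [true]))

theorem wt_split (hm : Monotone h) (v : List Bool) :
    wt h v ≤ wt h (v ++ [false]) + wt h (v ++ [true]) := by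
  unfold wt
  simp only [List.length_append, List.length_singleton]
  rw [← two_mul, pow_succ, mul_div_assoc', mul_comm (2 ^ v.length) (2 : ℝ≥0),
    mul_div_mul_left _ _ (by norm_num : (2 : ℝ≥0) ≠ 0)]
  gcongr
  · norm_num
  · exact hm (Nat.le_succ _)

theorem cost_le_wt (D : List Bool → Prop) (k : ℕ) (v : List Bool) : cost h D k v ≤ wt h v := by
  cases k with
  | zero =>
    unfold cost
    split_ifs
    · exact le_rfl
    · exact zero_le
  | succ k => exact min_le_left _ _

variable {D : List Bool → Prop}

theorem cost_D (hm : Monotone h) (hD : ∀ σ τ, σ <+: τ → D σ → D τ) (k : ℕ) {v : List Bool}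
    (hv : D v) : cost h D k v = wt h v := by
  induction k generalizing v with
  | zero => unfold cost; rw [if_pos hv]
  | succ k ih =>
    unfold cost
    rw [ih (hD _ _ (List.prefix_append v [false]) hv), ih (hD _ _ (List.prefix_append v [true]) hv)]
    exact min_eq_left (wt_split hm v)

theorem cost_succ (hm : Monotone h) (hD : ∀ σ τ, σ <+: τ → D σ → D τ) (k : ℕ) (v : List Bool) :
    cost h D k v ≤ cost h D (k + 1) v := by
  induction k generalizing v with
  | zero =>
    by_cases hv : D v
    · rw [cost_D hm hD _ hv, cost_D hm hD _ hv]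
    · unfold cost
      rw [if_neg hv]
      exact zero_le
  | succ k ih =>
    conv_lhs => unfold cost
    conv_rhs => unfold cost
    exact min_le_min le_rfl (add_le_add (ih _) (ih _))

theorem cost_mono (hm : Monotone h) (hD : ∀ σ τ, σ <+: τ → D σ → D τ) (v : List Bool) :
    Monotone fun k => cost h D k v := monotone_nat_of_le_succ fun k => cost_succ hm hD k v

/-- limit cost -/
noncomputable def Cs (h : ℕ → ℕ) (D : List Bool → Prop) (v : List Bool) : ℝ≥0∞ :=
  ⨆ k, (cost h D k v : ℝ≥0∞)

theorem Cs_le_wt (v : List Bool) : Cs h D v ≤ wt h v :=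
  iSup_le fun k => ENNReal.coe_le_coe.2 (cost_le_wt D k v)

theorem Cs_D (hm : Monotone h) (hD : ∀ σ τ, σ <+: τ → D σ → D τ) {v : List Bool}
    (hv : D v) : Cs h D v = wt h v := by
  refine le_antisymm (Cs_le_wt v) ?_
  refine le_trans (le_of_eq ?_) (le_iSup _ 0)
  rw [cost_D hm hD 0 hv]

theorem Cs_split (hm : Monotone h) (hD : ∀ σ τ, σ <+: τ → D σ → D τ) {v : List Bool}
    (hv : Cs h D v ≠ wt h v) : Cs h D (v ++ [false]) + Cs h D (v ++ [true]) ≤ Cs h D v := by
  have hlt : Cs h D v < wt h v := lt_of_le_of_ne (Cs_le_wt v) hv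
  unfold Cs at hlt ⊢
  rw [ENNReal.iSup_add_iSup_of_monotone
    (fun i j hij => ENNReal.coe_le_coe.2 (cost_mono hm hD _ hij))
    (fun i j hij => ENNReal.coe_le_coe.2 (cost_mono hm hD _ hij))]
  refine iSup_le fun k => ?_
  have h1 : (cost h D (k + 1) v : ℝ≥0∞) ≤ ⨆ k, (cost h D k v : ℝ≥0∞) :=
    le_iSup (fun k => (cost h D k v : ℝ≥0∞)) (k + 1)
  have h2 : cost h D (k + 1) v = min (wt h v)
      (cost h D k (v ++ [false]) + cost h D k (v ++ [true])) := rfl
  rw [h2, ENNReal.coe_min, ENNReal.coe_add] at h1
  rcases min_le_iff.1 h1 with h3 | h3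
  · exact absurd hlt (not_lt.2 h3)
  · exact h3

/-- the cover -/
def Vc (h : ℕ → ℕ) (D : List Bool → Prop) (ρ : List Bool) : Set (List Bool) :=
  {v | ρ <+: v ∧ Cs h D v = wt h v ∧ ∀ u, ρ <+: u → u <+: v → u ≠ v → Cs h D u ≠ wt h u}

theorem Vc_covers (hm : Monotone h) (hD : ∀ σ τ, σ <+: τ → D σ → D τ) {ρ w : List Bool}
    (hw : ρ <+: w) (hDw : D w) : ∃ u ∈ Vc h D ρ, u <+: w := by
  classical
  have h1 : ∃ l, ρ.length ≤ l ∧ l ≤ w.length ∧ Cs h D (w.take l) = wt h (w.take l) :=
    ⟨w.length, hw.length_le, le_rfl, by rw [List.take_length]; exact Cs_D hm hD hDw⟩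
  obtain ⟨h2, h3, h4⟩ := Nat.find_spec h1
  refine ⟨w.take (Nat.find h1), ⟨?_, h4, ?_⟩, List.take_prefix _ _⟩
  · refine List.prefix_of_prefix_length_le hw (List.take_prefix _ _) ?_
    rw [List.length_take]
    omega
  · intro u hu1 hu2 hne hc
    have hul : u.length < Nat.find h1 := by
      have h5 := hu2.length_le
      rw [List.length_take] at h5
      rcases (show u.length ≤ Nat.find h1 by omega).lt_or_eq with h6 | h6
      · exact h6
      · exfalso
        apply hne
        refine hu2.eq_of_length ?_
        rw [List.length_take, h6]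
        omega
    refine Nat.find_min h1 hul ⟨hu1.length_le, by omega, ?_⟩
    have h5 : w.take u.length = u :=
      (List.prefix_iff_eq_take.1 (hu2.trans (List.take_prefix _ _))).symm
    rw [h5]
    exact hc

theorem Vc_weight (hm : Monotone h) (hD : ∀ σ τ, σ <+: τ → D σ → D τ) (ρ : List Bool) :
    WS h (Vc h D ρ) ρ ≤ Cs h D ρ := by
  classical
  -- finite version
  have key : ∀ (F : Finset (List Bool)) (n : ℕ) (v : List Bool), ρ <+: v →
      (∀ u ∈ F, u.length ≤ v.length + n) →
      ∑ u ∈ F, (if u ∈ Vc h D ρ ∧ v <+: u then (wt h u : ℝ≥0∞) else 0) ≤ Cs h D v := by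
    intro F n
    induction n with
    | zero =>
      intro v hρ hF
      have h1 : ∀ u ∈ F, u ≠ v → (if u ∈ Vc h D ρ ∧ v <+: u then (wt h u : ℝ≥0∞) else 0) = 0 := by
        intro u hu hne
        rw [if_neg]
        rintro ⟨-, h2⟩
        exact hne (h2.eq_of_length (le_antisymm h2.length_le (hF u hu))).symm
      by_cases hv : v ∈ F
      · rw [Finset.sum_eq_single v h1 (fun h => absurd hv h)]
        split_ifs with h2
        · rw [h2.1.2.1]
        · exact zero_le
      · rw [Finset.sum_eq_zero fun u hu => h1 u hu (fun h => hv (h ▸ hu))]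
        exact zero_le
    | succ n ih =>
      intro v hρ hF
      by_cases hv : v ∈ Vc h D ρ
      · -- only `v` contributes
        have h1 : ∀ u ∈ F, u ≠ v →
            (if u ∈ Vc h D ρ ∧ v <+: u then (wt h u : ℝ≥0∞) else 0) = 0 := by
          intro u hu hne
          rw [if_neg]
          rintro ⟨h2, h3⟩
          exact h2.2.2 v hρ h3 (Ne.symm hne) hv.2.1
        by_cases hvF : v ∈ F
        · rw [Finset.sum_eq_single v h1 (fun h => absurd hvF h), hv.2.1]
          split_ifs
          · exact le_rfl
          · exact zero_le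
        · rw [Finset.sum_eq_zero fun u hu => h1 u hu (fun h => hvF (h ▸ hu))]
          exact zero_le
      · by_cases hc : Cs h D v = wt h v
        · -- some proper prefix is full
          have h1 : ∃ u', ρ <+: u' ∧ u' <+: v ∧ u' ≠ v ∧ Cs h D u' = wt h u' := by
            by_contra hcon
            push Not at hcon
            exact hv ⟨hρ, hc, fun u' h2 h3 h4 => hcon u' h2 h3 h4⟩
          obtain ⟨u', h2, h3, h4, h5⟩ := h1
          rw [Finset.sum_eq_zero]
          · exact zero_le
          · intro u hu
            rw [if_neg]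
            rintro ⟨h6, h7⟩
            refine h6.2.2 u' h2 (h3.trans h7) ?_ h5
            rintro rfl
            exact h4 (h3.eq_of_length (le_antisymm h3.length_le h7.length_le))
        · refine le_trans ?_ (Cs_split hm hD hc)
          refine le_trans ?_ (add_le_add
            (ih (v ++ [false]) (hρ.trans (List.prefix_append _ _)) (fun u hu => by
              have := hF u hu
              simp only [List.length_append, List.length_singleton]
              omega))
            (ih (v ++ [true]) (hρ.trans (List.prefix_append _ _)) (fun u hu => by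
              have := hF u hu
              simp only [List.length_append, List.length_singleton]
              omega)))
          rw [← Finset.sum_add_distrib]
          refine Finset.sum_le_sum fun u _ => ?_
          split_ifs with h1 h2 h3 h3 h4 <;> try simp
          -- `v` is a prefix of `u` but neither extension is
          exfalso
          obtain ⟨h4, ρ', rfl⟩ := h1
          cases ρ' with
          | nil => rw [List.append_nil] at h4; exact hv h4
          | cons b ρ' =>
            cases b
            · exact h2 ⟨h4, by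
                rw [show v ++ false :: ρ' = (v ++ [false]) ++ ρ' by simp]
                exact List.prefix_append _ _⟩
            · exact h3 ⟨h4, by
                rw [show v ++ true :: ρ' = (v ++ [true]) ++ ρ' by simp]
                exact List.prefix_append _ _⟩
  unfold WS
  rw [ENNReal.tsum_eq_iSup_sum]
  refine iSup_le fun F => ?_
  obtain ⟨n, hn⟩ : ∃ n, ∀ u ∈ F, u.length ≤ n := by
    refine ⟨F.sup List.length, fun u hu => Finset.le_sup (f := List.length) hu⟩
  exact key F n ρ List.prefix_rfl fun u hu => (hn u hu).trans (Nat.le_add_left _ _)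

end

end CD

end Pool.Agent.Helper227
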