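import Pool.Agent.Helper227.CD.Cost

set_option autoImplicit false

namespace Pool.Agent.Helper227

open Encodable MeasureTheory
open scoped ENNReal NNReal

namespace CD

section

variable {h : ℕ → ℕ}

/-- total mass above `u` -/
noncomputable def Ms (f : List Bool → ℝ≥0) (L : ℕ) (u : List Bool) : ℝ≥0 := ∑ w ∈ ext u L, f w

theorem ext_self {v : List Bool} : ext v v.length = {v} := by
  ext ρ
  rw [mem_ext, Finset.mem_singleton]
  constructor
  · rintro ⟨h1, h2⟩
    exact (h2.eq_of_length h1.symm).symm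
  · rintro rfl
    exact ⟨rfl, List.prefix_rfl⟩

theorem Ms_levels (f : List Bool → ℝ≥0) {u : List Bool} {k L : ℕ} (hk : u.length ≤ k) (hL : k ≤ L) :
    Ms f L u = ∑ ρ ∈ ext u k, Ms f L ρ := by
  classical
  unfold Ms
  rw [← Finset.sum_biUnion]
  · refine Finset.sum_congr ?_ fun _ _ => rfl
    ext w
    simp only [Finset.mem_biUnion, mem_ext]
    constructor
    · rintro ⟨h1, h2⟩
      refine ⟨w.take k, ⟨by rw [List.length_take]; omega, ?_⟩, h1, List.take_prefix _ _⟩
      exact List.prefix_of_prefix_length_le h2 (List.take_prefix _ _) (by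
        rw [List.length_take]; omega)
    · rintro ⟨ρ, ⟨h1, h2⟩, h3, h4⟩
      exact ⟨h3, h2.trans h4⟩
  · intro a ha b hb hab
    rw [Function.onFun, Finset.disjoint_left]
    intro w hw1 hw2
    rw [Finset.mem_coe] at ha hb
    rw [mem_ext] at hw1 hw2 ha hb
    exact hab (prefix_unique hw1.2 hw2.2 (ha.1.trans hb.1.symm))

theorem ext_succ (u : List Bool) : ext u (u.length + 1) = {u ++ [false], u ++ [true]} := by
  ext ρ
  rw [mem_ext, Finset.mem_insert, Finset.mem_singleton]
  constructor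
  · rintro ⟨h1, ρ', rfl⟩
    rw [List.length_append] at h1
    obtain ⟨b, rfl⟩ : ∃ b, ρ' = [b] := List.length_eq_one_iff.1 (by omega)
    cases b
    · exact Or.inl rfl
    · exact Or.inr rfl
  · rintro (rfl | rfl)
    · exact ⟨by simp, List.prefix_append _ _⟩
    · exact ⟨by simp, List.prefix_append _ _⟩

theorem Ms_split (f : List Bool → ℝ≥0) {u : List Bool} {L : ℕ} (hL : u.length < L) :
    Ms f L u = Ms f L (u ++ [false]) + Ms f L (u ++ [true]) := by
  rw [Ms_levels f (Nat.le_succ _) hL, Nat.succ_eq_add_one, ext_succ, Finset.sum_pair]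
  intro h
  simpa using List.append_cancel_left h

/-- `f` is a flow on the strings of length `L` in `D` above `v`, obeying the capacities -/
def IsFl (h : ℕ → ℕ) (D : List Bool → Prop) (f : List Bool → ℝ≥0) (L : ℕ) (v : List Bool) : Prop :=
  (∀ w, f w ≠ 0 → w.length = L ∧ v <+: w ∧ D w) ∧ ∀ u, v <+: u → Ms f L u ≤ wt h u

theorem Ms_eq_zero {D : List Bool → Prop} {f : List Bool → ℝ≥0} {L : ℕ} {v u : List Bool}
    (hf : ∀ w, f w ≠ 0 → w.length = L ∧ v <+: w ∧ D w) (hu : ∀ w, u <+: w → ¬ v <+: w) :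
    Ms f L u = 0 := by
  unfold Ms
  refine Finset.sum_eq_zero fun w hw => ?_
  by_contra hne
  exact hu w (mem_ext.1 hw).2 (hf w hne).2.1

theorem Ms_smul_add (c : ℝ≥0) (f g : List Bool → ℝ≥0) (L : ℕ) (u : List Bool) :
    Ms (fun w => c * (f w + g w)) L u = c * (Ms f L u + Ms g L u) := by
  unfold Ms
  rw [← Finset.mul_sum, Finset.sum_add_distrib]

theorem Ms_smul (c : ℝ≥0) (f : List Bool → ℝ≥0) (L : ℕ) (u : List Bool) :
    Ms (fun w => c * f w) L u = c * Ms f L u := by
  unfold Ms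
  rw [← Finset.mul_sum]

theorem not_both {v w : List Bool} (h0 : v ++ [false] <+: w) (h1 : v ++ [true] <+: w) : False := by
  have := prefix_unique h0 h1 (by simp)
  simpa using List.append_cancel_left this

theorem exists_fl (D : List Bool → Prop) : ∀ (k : ℕ) (v : List Bool) (L : ℕ), L = v.length + k →
    ∃ f, IsFl h D f L v ∧ Ms f L v = cost h D k v := by
  classical
  intro k
  induction k with
  | zero =>
    rintro v L rfl
    refine ⟨fun w => if w = v ∧ D v then wt h v else 0, ⟨?_, ?_⟩, ?_⟩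
    · intro w hw
      have h1 : w = v ∧ D v := by
        by_contra hc
        exact hw (if_neg hc)
      rw [h1.1]
      exact ⟨rfl, List.prefix_rfl, h1.2⟩
    · intro u hu
      unfold Ms
      rcases hu.length_le.lt_or_eq with h1 | h1
      · rw [Nat.add_zero, ext_empty h1]
        simp
      · rw [← hu.eq_of_length h1, Nat.add_zero, ext_self, Finset.sum_singleton]
        split_ifs
        · exact le_rfl
        · exact zero_le
    · unfold Ms cost
      rw [Nat.add_zero, ext_self, Finset.sum_singleton]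
      simp
  | succ k ih =>
    intro v L hL
    obtain ⟨f0, ⟨h01, h02⟩, h03⟩ := ih (v ++ [false]) L (by simp; omega)
    obtain ⟨f1, ⟨h11, h12⟩, h13⟩ := ih (v ++ [true]) L (by simp; omega)
    obtain ⟨s, hs⟩ : ∃ s, s = cost h D k (v ++ [false]) + cost h D k (v ++ [true]) := ⟨_, rfl⟩
    have hcost : cost h D (k + 1) v = min (wt h v) s := by rw [hs]; rfl
    obtain ⟨c, hc⟩ : ∃ c, c = min (wt h v) s / s := ⟨_, rfl⟩
    have hc1 : c ≤ 1 := by
      rw [hc]
      exact div_le_one_of_le₀ (min_le_right _ _) zero_le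
    have hcs : c * s = min (wt h v) s := by
      rcases eq_or_ne s 0 with h0 | h0
      · rw [h0]; simp
      · rw [hc, div_mul_cancel₀ _ h0]
    have hz0 : Ms f0 L (v ++ [true]) = 0 := Ms_eq_zero h01 fun w h1 h2 => not_both h2 h1
    have hz1 : Ms f1 L (v ++ [false]) = 0 := Ms_eq_zero h11 fun w h1 h2 => not_both h1 h2
    have hv : Ms (fun w => c * (f0 w + f1 w)) L v = min (wt h v) s := by
      rw [Ms_smul_add, Ms_split f0 (by omega), Ms_split f1 (by omega), hz0, hz1, h03, h13, add_zero,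
        zero_add, ← hs, hcs]
    refine ⟨fun w => c * (f0 w + f1 w), ⟨?_, ?_⟩, ?_⟩
    · intro w hw
      have h1 : f0 w ≠ 0 ∨ f1 w ≠ 0 := by
        by_contra hcon
        push Not at hcon
        exact hw (by simp [hcon.1, hcon.2])
      rcases h1 with h1 | h1
      · obtain ⟨h2, h3, h4⟩ := h01 w h1
        exact ⟨h2, (List.prefix_append _ _).trans h3, h4⟩
      · obtain ⟨h2, h3, h4⟩ := h11 w h1
        exact ⟨h2, (List.prefix_append _ _).trans h3, h4⟩
    · intro u hu
      obtain ⟨u', rfl⟩ := hu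
      cases u' with
      | nil =>
        rw [List.append_nil, hv]
        exact min_le_left _ _
      | cons b u' =>
        cases b
        · rw [show v ++ false :: u' = (v ++ [false]) ++ u' by simp]
          have h2 : Ms f1 L ((v ++ [false]) ++ u') = 0 :=
            Ms_eq_zero h11 fun w h1 h2 => not_both ((List.prefix_append _ _).trans h1) h2
          rw [Ms_smul_add, h2, add_zero]
          calc c * Ms f0 L ((v ++ [false]) ++ u') ≤ 1 * Ms f0 L ((v ++ [false]) ++ u') := by gcongr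
            _ ≤ _ := by rw [one_mul]; exact h02 _ (List.prefix_append _ _)
        · rw [show v ++ true :: u' = (v ++ [true]) ++ u' by simp]
          have h2 : Ms f0 L ((v ++ [true]) ++ u') = 0 :=
            Ms_eq_zero h01 fun w h1 h2 => not_both h2 ((List.prefix_append _ _).trans h1)
          rw [Ms_smul_add, h2, zero_add]
          calc c * Ms f1 L ((v ++ [true]) ++ u') ≤ 1 * Ms f1 L ((v ++ [true]) ++ u') := by gcongr
            _ ≤ _ := by rw [one_mul]; exact h12 _ (List.prefix_append _ _)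
    · rw [hv, hcost]

theorem exists_fl' {D : List Bool → Prop} {k : ℕ} {v : List Bool} {L : ℕ} (hL : L = v.length + k)
    {t : ℝ≥0} (ht : t ≤ cost h D k v) : ∃ f, IsFl h D f L v ∧ Ms f L v = t := by
  obtain ⟨f, ⟨h1, h2⟩, h3⟩ := exists_fl (h := h) D k v L hL
  obtain ⟨c, hc⟩ : ∃ c, c = t / cost h D k v := ⟨_, rfl⟩
  have hc1 : c ≤ 1 := by
    rw [hc]
    exact div_le_one_of_le₀ ht zero_le
  refine ⟨fun w => c * f w, ⟨fun w hw => h1 w fun h0 => hw (by simp [h0]), fun u hu => ?_⟩, ?_⟩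
  · rw [Ms_smul]
    calc c * Ms f L u ≤ 1 * Ms f L u := by gcongr
      _ ≤ _ := by rw [one_mul]; exact h2 u hu
  · rw [Ms_smul, h3]
    rcases eq_or_ne (cost h D k v) 0 with h0 | h0
    · rw [h0] at ht ⊢
      simp [le_antisymm ht zero_le]
    · rw [hc, div_mul_cancel₀ _ h0]

end

/-- selection of a subset with prescribed density, by greedy choice -/
theorem select {ι κ : Type*} [DecidableEq ι] (T : Finset ι) (I : Finset κ) (x : ι → κ → ℝ) (p : ℝ)
    (hp0 : 0 ≤ p) (hp1 : p ≤ 1) : ∃ F ⊆ T,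
      ∑ j ∈ I, (∑ i ∈ F, x i j - p * ∑ i ∈ T, x i j) ^ 2 ≤ ∑ i ∈ T, ∑ j ∈ I, (x i j) ^ 2 := by
  induction T using Finset.induction_on with
  | empty => exact ⟨∅, Finset.Subset.refl _, by simp⟩
  | insert a T ha ih =>
    obtain ⟨F, hF, hle⟩ := ih
    have haF : a ∉ F := fun h => ha (hF h)
    obtain ⟨s, hs⟩ : ∃ s : κ → ℝ, s = fun j => ∑ i ∈ F, x i j - p * ∑ i ∈ T, x i j := ⟨_, rfl⟩
    have hle' : ∑ j ∈ I, (s j) ^ 2 ≤ ∑ i ∈ T, ∑ j ∈ I, (x i j) ^ 2 := by rw [hs]; exact hle
    have hx0 : 0 ≤ ∑ j ∈ I, (x a j) ^ 2 := Finset.sum_nonneg fun j _ => sq_nonneg _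
    rw [Finset.sum_insert ha]
    rcases le_or_gt (∑ j ∈ I, s j * x a j) 0 with h0 | h0
    · refine ⟨insert a F, Finset.insert_subset_insert a hF, ?_⟩
      have h1 : ∑ j ∈ I, (∑ i ∈ insert a F, x i j - p * ∑ i ∈ insert a T, x i j) ^ 2 =
          ∑ j ∈ I, (s j) ^ 2 + 2 * (1 - p) * ∑ j ∈ I, s j * x a j +
            (1 - p) ^ 2 * ∑ j ∈ I, (x a j) ^ 2 := by
        rw [Finset.mul_sum, Finset.mul_sum, ← Finset.sum_add_distrib, ← Finset.sum_add_distrib]
        refine Finset.sum_congr rfl fun j _ => ?_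
        rw [Finset.sum_insert haF, Finset.sum_insert ha, hs]
        ring
      rw [h1]
      have h2 : 2 * (1 - p) * ∑ j ∈ I, s j * x a j ≤ 0 :=
        mul_nonpos_of_nonneg_of_nonpos (by linarith) h0
      have h3 : (1 - p) ^ 2 * ∑ j ∈ I, (x a j) ^ 2 ≤ 1 * ∑ j ∈ I, (x a j) ^ 2 := by
        gcongr
        exact pow_le_one₀ (by linarith) (by linarith)
      linarith
    · refine ⟨F, hF.trans (Finset.subset_insert _ _), ?_⟩
      have h1 : ∑ j ∈ I, (∑ i ∈ F, x i j - p * ∑ i ∈ insert a T, x i j) ^ 2 =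
          ∑ j ∈ I, (s j) ^ 2 - 2 * p * ∑ j ∈ I, s j * x a j +
            p ^ 2 * ∑ j ∈ I, (x a j) ^ 2 := by
        rw [Finset.mul_sum, Finset.mul_sum, ← Finset.sum_sub_distrib, ← Finset.sum_add_distrib]
        refine Finset.sum_congr rfl fun j _ => ?_
        rw [Finset.sum_insert ha, hs]
        ring
      rw [h1]
      have h2 : 0 ≤ 2 * p * ∑ j ∈ I, s j * x a j := by positivity
      have h3 : p ^ 2 * ∑ j ∈ I, (x a j) ^ 2 ≤ 1 * ∑ j ∈ I, (x a j) ^ 2 := by
        gcongr
        exact pow_le_one₀ hp0 hp1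
      linarith

end CD

end Pool.Agent.Helper227
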