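import Pool.Agent.Helper227.CD.TestD

set_option autoImplicit false

namespace Pool.Agent.Helper227

open Encodable MeasureTheory
open scoped ENNReal NNReal
open Nat.Partrec (Code)

namespace CD

section

variable {h : ℕ → ℕ}

theorem WS_union (S V : Set (List Bool)) (ρ : List Bool) :
    WS h (S ∪ V) ρ ≤ WS h S ρ + WS h V ρ := by
  classical
  unfold WS
  rw [← ENNReal.tsum_add]
  refine ENNReal.tsum_le_tsum fun v => ?_
  by_cases h1 : v ∈ S ∧ ρ <+: v
  · rw [if_pos h1, if_pos ⟨Or.inl h1.1, h1.2⟩]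
    exact le_add_of_nonneg_right zero_le
  · by_cases h2 : v ∈ V ∧ ρ <+: v
    · rw [if_pos h2, if_pos ⟨Or.inr h2.1, h2.2⟩]
      exact le_add_of_nonneg_left zero_le
    · rw [if_neg]
      · exact zero_le
      · rintro ⟨h3 | h3, h4⟩
        · exact h1 ⟨h3, h4⟩
        · exact h2 ⟨h3, h4⟩

/-- the alternatives of a requirement -/
def Alt (Ψ : List Bool × ℕ × Bool → Prop) (b : ℕ) (ρ : List Bool) (S : Set (List Bool)) : Prop :=
  (∃ n, ∀ w, ρ <+: w → Dn Ψ n w → ∃ u ∈ S, ρ <+: u ∧ u <+: w) ∨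
    ∃ τ, Phi Ψ ρ τ ∧ cyl τ ⊆ UE EU0 zero b

theorem step (hm : Monotone h) (hu : ∀ b, ∃ n, b ≤ h n) (hh : Computable h)
    {Ψ : List Bool × ℕ × Bool → Prop} (hΨ : S1 Ψ) (mΨ : MonoF Ψ) (b N : ℕ) {σ : List Bool}
    {S : Set (List Bool)} (hw : WS h S σ < wt h σ) :
    ∃ (ρ : List Bool) (S' : Set (List Bool)), (σ <+: ρ ∧ N ≤ ρ.length ∧ S ⊆ S' ∧
      (∀ u ∈ S, σ <+: u → ¬ u <+: ρ)) ∧ WS h S' ρ < wt h ρ ∧ Alt Ψ b ρ S' := by
  obtain ⟨ρ0, h1, h2, h3, h4⟩ := exists_good_ext hm hu hw (δ := 1 / 64) (by simp) (by simp) N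
  have h5 : 64 * WS h S ρ0 ≤ wt h ρ0 := by
    calc 64 * WS h S ρ0 ≤ 64 * (1 / 64 * wt h ρ0) := by gcongr
      _ = wt h ρ0 := by
          rw [← mul_assoc, one_div, ENNReal.mul_inv_cancel (by norm_num) (by norm_num), one_mul]
  have havoid : ∀ ρ, ρ0 <+: ρ → (∀ u ∈ S, ρ0 <+: u → ¬ u <+: ρ) → ∀ u ∈ S, σ <+: u → ¬ u <+: ρ := by
    intro ρ h6 h7 u hu1 hu2 hu3
    rcases List.prefix_or_prefix_of_prefix hu3 h6 with h8 | h8
    · exact h3 u hu1 hu2 h8
    · exact h7 u hu1 h8 hu3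
  by_cases hcase : ∀ n ρ, ρ0 <+: ρ → Good h S ρ0 (1 / 4) ρ → ∃ k, wt h ρ ≤ 2 * cost h (Dn Ψ n) k ρ
  · have hall : ∀ M, ∃ F, PF h Ψ ρ0 (M, F) := by
      intro M
      obtain ⟨F, L, Q, n, A, hc⟩ := exists_cert hm hu mΨ h5 hcase M
      exact ⟨F, (L, Q, n, A), hc⟩
    obtain ⟨M, F, ⟨y, hy⟩, h6⟩ := exists_level hh hΨ ρ0 hall b
    obtain ⟨w, h7, h8, h9, τ, h10, h11⟩ := extend_cert hy h5
    exact ⟨w, S, ⟨h1.trans h7, h2.trans h7.length_le, Set.Subset.refl _, havoid w h7 h8⟩, h9,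
      Or.inr ⟨τ, h11, h6 τ h10⟩⟩
  · push Not at hcase
    obtain ⟨n, ρ, h6, ⟨h7, h8⟩, h9⟩ := hcase
    refine ⟨ρ, S ∪ Vc h (Dn Ψ n) ρ, ⟨h1.trans h6, h2.trans h6.length_le, Set.subset_union_left,
      havoid ρ h6 h7⟩, ?_, Or.inl ⟨n, ?_⟩⟩
    · refine lt_of_le_of_lt (WS_union _ _ _) ?_
      have h10 : WS h (Vc h (Dn Ψ n) ρ) ρ ≤ 1 / 2 * wt h ρ := by
        refine (Vc_weight hm (Dn_mono mΨ n) ρ).trans (iSup_le fun k => ?_)
        have h11 := (h9 k).le
        have h12 : (2 : ℝ≥0∞) * cost h (Dn Ψ n) k ρ ≤ wt h ρ := by exact_mod_cast h11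
        calc (cost h (Dn Ψ n) k ρ : ℝ≥0∞) = 1 / 2 * (2 * cost h (Dn Ψ n) k ρ) := by
              rw [← mul_assoc, one_div, ENNReal.inv_mul_cancel (by norm_num) (by norm_num), one_mul]
          _ ≤ _ := by gcongr
      calc WS h S ρ + WS h (Vc h (Dn Ψ n) ρ) ρ ≤ 1 / 4 * wt h ρ + 1 / 2 * wt h ρ :=
            add_le_add h8 h10
        _ = (3 / 4) * wt h ρ := by
            rw [← add_mul]
            congr 1
            rw [one_div, one_div, div_eq_mul_inv]
            have e1 : (2 : ℝ≥0∞)⁻¹ = 2 * 4⁻¹ := by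
              rw [show (4 : ℝ≥0∞) = 2 * 2 by norm_num, ENNReal.mul_inv (by norm_num) (by norm_num),
                ← mul_assoc, ENNReal.mul_inv_cancel (by norm_num) (by norm_num), one_mul]
            rw [e1]
            ring
        _ < wt h ρ := by
            have h11 : (3 / 4 : ℝ≥0∞) < 1 := by
              rw [ENNReal.div_lt_iff (by norm_num) (by norm_num), one_mul]
              norm_num
            calc (3 / 4 : ℝ≥0∞) * wt h ρ < 1 * wt h ρ :=
                  (ENNReal.mul_lt_mul_iff_left (wt_ne_zero ρ) ENNReal.coe_ne_top).2 h11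
              _ = wt h ρ := one_mul _
    · intro w hw1 hw2
      obtain ⟨u, hu1, hu2⟩ := Vc_covers hm (Dn_mono mΨ n) hw1 hw2
      exact ⟨u, Or.inr hu1, hu1.1, hu2⟩

/-- the relation enumerated by a code -/
def Pc (c : Code) (x : List Bool × ℕ × Bool) : Prop := ∃ r : ℕ, (c.evaln r (encode x)).isSome = true

theorem s1_Pc (c : Code) : S1 (Pc c) := by
  refine S1.ex (S1.of_prim ?_)
  refine Primrec.eq.comp (Primrec.option_isSome.comp (Nat.Partrec.Code.primrec_evaln.comp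
    ((Primrec.snd.pair (Primrec.const c)).pair (Primrec.encode.comp Primrec.fst)))) (Primrec.const true)

theorem exists_Pc {E : List Bool × ℕ × Bool → Prop} (hE : S1 E) : ∃ c : Code, Pc c = E := by
  obtain ⟨c, hc⟩ := Nat.Partrec.Code.exists_code.1 hE.re
  refine ⟨c, ?_⟩
  funext x
  apply propext
  have h1 : (c.eval (encode x)).Dom ↔ E x := by
    rw [hc]
    simp [Part.assert]
  rw [← h1]
  constructor
  · rintro ⟨n, hn⟩
    obtain ⟨y, hy⟩ := Option.isSome_iff_exists.1 hn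
    exact Part.dom_iff_mem.2 ⟨y, Nat.Partrec.Code.evaln_sound hy⟩
  · intro h
    obtain ⟨y, hy⟩ := Part.dom_iff_mem.1 h
    obtain ⟨k, hk⟩ := Nat.Partrec.Code.evaln_complete.1 hy
    exact ⟨k, Option.isSome_iff_exists.2 ⟨y, hk⟩⟩

theorem step' (hm : Monotone h) (hu : ∀ b, ∃ n, b ≤ h n) (hh : Computable h) (c : Code) (b N : ℕ)
    {σ : List Bool} {S : Set (List Bool)} (hw : WS h S σ < wt h σ) :
    ∃ (ρ : List Bool) (S' : Set (List Bool)), (σ <+: ρ ∧ N ≤ ρ.length ∧ S ⊆ S' ∧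
      (∀ u ∈ S, σ <+: u → ¬ u <+: ρ)) ∧ WS h S' ρ < wt h ρ ∧ (MonoF (Pc c) → Alt (Pc c) b ρ S') := by
  by_cases hc : MonoF (Pc c)
  · obtain ⟨ρ, S', h1, h2, h3⟩ := step hm hu hh (s1_Pc c) hc b N hw
    exact ⟨ρ, S', h1, h2, fun _ => h3⟩
  · obtain ⟨ρ, S', h1, h2, h3⟩ := step hm hu hh (Ψ := fun _ => False) (S1.of_prim (PP.const False))
      (fun _ _ _ _ _ h => h) b N hw
    exact ⟨ρ, S', h1, h2, fun h => absurd h hc⟩

/-- limit of a chain of strings -/
theorem exists_limit {σ : ℕ → List Bool} (h1 : ∀ i, σ i <+: σ (i + 1)) (h2 : ∀ i, i ≤ (σ i).length) :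
    ∃ X : ℕ → Bool, ∀ i, pre X (σ i).length = σ i := by
  have hmono : ∀ i j, i ≤ j → σ i <+: σ j := by
    intro i j hij
    induction j, hij using Nat.le_induction with
    | base => exact List.prefix_rfl
    | succ j _ ih => exact ih.trans (h1 j)
  refine ⟨fun n => (σ (n + 1)).getD n false, fun i => ?_⟩
  refine List.ext_getElem (by simp) fun j h3 h4 => ?_
  rw [getElem_pre]
  have h5 : j < (σ (j + 1)).length := h2 (j + 1)
  rw [List.getD_eq_getElem _ _ h5]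
  rcases Nat.le_total i (j + 1) with h6 | h6
  · exact (List.IsPrefix.getElem (hmono i (j + 1) h6) h4).symm
  · exact List.IsPrefix.getElem (hmono (j + 1) i h6) h5

theorem pre_comparable {X : ℕ → Bool} {u v : List Bool} (hu : pre X u.length = u)
    (hv : pre X v.length = v) (hl : u.length ≤ v.length) : u <+: v := by
  rw [← hu, ← hv]
  exact pre_prefix X hl

theorem force (hm : Monotone h) (hu : ∀ b, ∃ n, b ≤ h n) (hh : Computable h)
    {S0 : Set (List Bool)} (hS0 : WS h S0 [] < wt h []) :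
    ∃ X : ℕ → Bool, (∀ n, pre X n ∉ S0) ∧ ∀ Y, TLe Y X → ∀ b, Y ∈ UE EU0 zero b := by
  classical
  -- the construction
  let St := {p : List Bool × Set (List Bool) // WS h p.2 p.1 < wt h p.1}
  have hstep : ∀ (i : ℕ) (p : St), ∃ p' : St, (p.1.1 <+: p'.1.1 ∧ i + 1 ≤ p'.1.1.length ∧
      p.1.2 ⊆ p'.1.2 ∧ (∀ u ∈ p.1.2, p.1.1 <+: u → ¬ u <+: p'.1.1)) ∧
      (MonoF (Pc (Denumerable.ofNat Code i.unpair.1)) →
        Alt (Pc (Denumerable.ofNat Code i.unpair.1)) i.unpair.2 p'.1.1 p'.1.2) := by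
    intro i p
    obtain ⟨ρ, S', h1, h2, h3⟩ := step' hm hu hh (Denumerable.ofNat Code i.unpair.1) i.unpair.2
      (i + 1) p.2
    exact ⟨⟨(ρ, S'), h2⟩, h1, h3⟩
  choose nx hnx using hstep
  let seq : ℕ → St := fun i => Nat.rec ⟨([], S0), hS0⟩ (fun i p => nx i p) i
  have hseq : ∀ i, seq (i + 1) = nx i (seq i) := fun i => rfl
  obtain ⟨σ, hσ⟩ : ∃ σ : ℕ → List Bool, σ = fun i => (seq i).1.1 := ⟨_, rfl⟩
  obtain ⟨S, hS⟩ : ∃ S : ℕ → Set (List Bool), S = fun i => (seq i).1.2 := ⟨_, rfl⟩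
  have hp : ∀ i, σ i <+: σ (i + 1) := by
    intro i; rw [hσ]; simp only; rw [hseq]; exact (hnx i (seq i)).1.1
  have hl : ∀ i, i + 1 ≤ (σ (i + 1)).length := by
    intro i; rw [hσ]; simp only; rw [hseq]; exact (hnx i (seq i)).1.2.1
  have hSm : ∀ i, S i ⊆ S (i + 1) := by
    intro i; rw [hS]; simp only; rw [hseq]; exact (hnx i (seq i)).1.2.2.1
  have hav : ∀ i, ∀ u ∈ S i, σ i <+: u → ¬ u <+: σ (i + 1) := by
    intro i; rw [hS, hσ]; simp only; rw [hseq]; exact (hnx i (seq i)).1.2.2.2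
  have halt : ∀ i, MonoF (Pc (Denumerable.ofNat Code i.unpair.1)) →
        Alt (Pc (Denumerable.ofNat Code i.unpair.1)) i.unpair.2 (σ (i + 1)) (S (i + 1)) := by
    intro i; rw [hS, hσ]; simp only; rw [hseq]; exact (hnx i (seq i)).2
  have hl' : ∀ i, i ≤ (σ i).length := by
    intro i
    cases i with
    | zero => exact Nat.zero_le _
    | succ i => exact hl i
  obtain ⟨X, hX⟩ := exists_limit hp hl'
  have havoid : ∀ i, ∀ u ∈ S i, σ i <+: u → pre X u.length ≠ u := by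
    intro i u hu1 hu2 hu3
    have key : ∀ j, i ≤ j → u ∈ S j ∧ σ j <+: u := by
      intro j hij
      induction j, hij using Nat.le_induction with
      | base => exact ⟨hu1, hu2⟩
      | succ j _ ih =>
        refine ⟨hSm j ih.1, ?_⟩
        rcases Nat.le_total u.length (σ (j + 1)).length with h1 | h1
        · exact absurd (pre_comparable hu3 (hX _) h1) (hav j u ih.1 ih.2)
        · exact pre_comparable (hX _) hu3 h1
    have h1 := (key (i + u.length + 1) (by omega)).2.length_le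
    have h2 := hl' (i + u.length + 1)
    omega
  refine ⟨X, fun n hn => ?_, fun Y hY b => ?_⟩
  · refine havoid 0 (pre X n) ?_ ?_ (by rw [length_pre])
    · rw [hS]; exact hn
    · rw [hσ]; exact List.nil_prefix
  · obtain ⟨E, hE, mE, eE⟩ := tLe_iff_SI.1 hY
    obtain ⟨c, hc⟩ := exists_Pc hE
    have hmE : MonoF E := fun σ σ' i b h1 h2 => mE _ _ _ h1 h2
    have h1 := halt (Nat.pair (encode c) b)
    simp only [Nat.unpair_pair, Denumerable.ofNat_encode] at h1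
    rw [hc] at h1
    rcases h1 hmE with ⟨n, h2⟩ | ⟨τ, h2, h3⟩
    · exfalso
      -- the functional is total along `X`
      have h3 : ∃ t, (σ (Nat.pair (encode c) b + 1)).length ≤ t ∧ Phi E (pre X t) (pre Y n) := by
        have h4 : ∀ i, ∃ s, E (pre X s, i, Y i) := fun i => (eE (i, Y i)).1 rfl
        choose s hs using h4
        refine ⟨(σ (Nat.pair (encode c) b + 1)).length + ∑ i ∈ Finset.range n, s i, by omega, ?_⟩
        intro i hi
        rw [length_pre] at hi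
        rw [pre_getD _ _ _ _ hi]
        refine hmE _ _ _ _ (pre_prefix X ?_) (hs i)
        have := Finset.single_le_sum (f := s) (fun _ _ => Nat.zero_le _) (Finset.mem_range.2 hi)
        omega
      obtain ⟨t, ht1, ht2⟩ := h3
      obtain ⟨u, hu1, hu2, hu3⟩ := h2 (pre X t) (pre_comparable (hX _) (by rw [length_pre])
        (by rw [length_pre]; exact ht1)) ⟨pre Y n, by simp, ht2⟩
      exact havoid _ u hu1 hu2 (pre_eq_of_prefix hu3).symm
    · apply h3
      rw [mem_cyl_iff]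
      refine List.ext_getElem (by simp) fun i h4 h5 => ?_
      rw [getElem_pre]
      have h6 := h2 i h5
      rw [List.getD_eq_getElem _ _ h5, ← hX] at h6
      exact (eE (i, τ[i])).2 ⟨_, h6⟩

end

end CD

end Pool.Agent.Helper227
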