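import Pool.Agent.Helper227.CD.Flow

set_option autoImplicit false

namespace Pool.Agent.Helper227

open Encodable MeasureTheory
open scoped ENNReal NNReal

namespace CD

section

variable {h : ℕ → ℕ}

theorem wt_real (v : List Bool) : (wt h v : ℝ) = 2 ^ h v.length / 2 ^ v.length := by
  unfold wt
  push_cast
  rfl

theorem label (hm : Monotone h) {ρ0 : List Bool} {k L M n : ℕ} (hk : ρ0.length ≤ k) (hkL : k ≤ L)
    {G : Finset (List Bool)} (hG : G ⊆ ext ρ0 k) (hGc : 2 ^ (k - ρ0.length) ≤ 2 * G.card)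
    {φ : List Bool → ℝ≥0}
    (hφ1 : ∀ u, ρ0 <+: u → k ≤ u.length → 2 ^ M * Ms φ L u ≤ wt h u)
    (hφ2 : ∀ ρ ∈ ext ρ0 k, (Ms φ L ρ : ℝ) = if ρ ∈ G then 2 ^ h ρ0.length / 2 ^ (k + 1) else 0)
    {ℓ : List Bool → List Bool} (hℓ : ∀ w, φ w ≠ 0 → (ℓ w).length = n)
    (hn : 2 * k + 3 * M + 8 ≤ n) :
    ∃ F : Finset (List Bool), (∀ τ ∈ F, τ.length = n) ∧ F.card * 2 ^ M ≤ 4 * 2 ^ n ∧
      ∃ ψ : List Bool → ℝ≥0, (∀ w, ψ w ≠ 0 → φ w ≠ 0 ∧ ℓ w ∈ F) ∧
        (∀ u, ρ0 <+: u → Ms ψ L u ≤ wt h u) ∧ 3 * (wt h ρ0 : ℝ) ≤ 16 * Ms ψ L ρ0 := by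
  classical
  obtain ⟨r, hr⟩ : ∃ r, r = ρ0.length := ⟨_, rfl⟩
  obtain ⟨a, ha⟩ : ∃ a : ℝ, a = 2 ^ h ρ0.length := ⟨_, rfl⟩
  rw [← ha] at hφ2
  rw [← hr] at hk hGc
  have ha0 : 0 < a := by rw [ha]; positivity
  obtain ⟨A, hA⟩ : ∃ A : Finset (List Bool), A = (allStr n).toFinset := ⟨_, rfl⟩
  have hmemA : ∀ τ, τ ∈ A ↔ τ.length = n := by
    intro τ; rw [hA, List.mem_toFinset, mem_allStr]
  have hcardA : A.card = 2 ^ n := by
    rw [hA, List.toFinset_card_of_nodup (nodup_allStr _), length_allStr]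
  obtain ⟨x, hx⟩ : ∃ x : List Bool → List Bool → ℝ,
      x = fun τ ρ => ∑ w ∈ ext ρ L, if ℓ w = τ then (φ w : ℝ) else 0 := ⟨_, rfl⟩
  have hx0 : ∀ τ ρ, 0 ≤ x τ ρ := by
    intro τ ρ
    rw [hx]
    refine Finset.sum_nonneg fun w _ => ?_
    split_ifs
    · exact (φ w).2
    · exact le_rfl
  -- sums over sets of labels
  have hsum : ∀ (B : Finset (List Bool)) ρ, ∑ τ ∈ B, x τ ρ =
      ∑ w ∈ ext ρ L, if ℓ w ∈ B then (φ w : ℝ) else 0 := by
    intro B ρ
    rw [hx]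
    simp only
    rw [Finset.sum_comm]
    refine Finset.sum_congr rfl fun w _ => ?_
    rw [Finset.sum_ite_eq]
  have hMsφ : ∀ ρ, (Ms φ L ρ : ℝ) = ∑ τ ∈ A, x τ ρ := by
    intro ρ
    rw [hsum]
    unfold Ms
    push_cast
    refine Finset.sum_congr rfl fun w _ => ?_
    split_ifs with h1
    · rfl
    · by_contra h2
      have h3 : φ w ≠ 0 := by
        intro h4; rw [h4] at h2; simp at h2
      exact h1 ((hmemA _).2 (hℓ w h3))
  have h2k : (2 : ℝ) ^ k = 2 ^ (k - r) * 2 ^ r := by rw [← pow_add]; congr 1; omega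
  -- total mass
  obtain ⟨tot, htot⟩ : ∃ tot : List Bool → ℝ, tot = fun τ => ∑ ρ ∈ ext ρ0 k, x τ ρ := ⟨_, rfl⟩
  have hcard : (ext ρ0 k).card = 2 ^ (k - r) := by rw [hr]; exact card_ext (hr ▸ hk)
  have hMle : ∀ ρ ∈ ext ρ0 k, (Ms φ L ρ : ℝ) ≤ a / 2 ^ (k + 1) := by
    intro ρ hρ
    rw [hφ2 ρ hρ]
    split_ifs
    · exact le_rfl
    · positivity
  have htotA : ∑ τ ∈ A, tot τ ≤ a / 2 ^ (r + 1) := by
    rw [htot]
    simp only
    rw [Finset.sum_comm]
    simp only [← hMsφ]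
    refine (Finset.sum_le_sum hMle).trans ?_
    rw [Finset.sum_const, hcard, nsmul_eq_mul]
    push_cast
    apply le_of_eq
    rw [pow_succ, pow_succ, h2k]
    field_simp
  have htot0 : ∀ τ, 0 ≤ tot τ := fun τ => by
    rw [htot]; exact Finset.sum_nonneg fun ρ _ => hx0 τ ρ
  -- thresholds
  obtain ⟨η, hη⟩ : ∃ η : ℝ, η = a / 2 ^ (k + M + 4) := ⟨_, rfl⟩
  obtain ⟨θ, hθ⟩ : ∃ θ : ℝ, θ = a * 2 ^ r / 2 ^ (2 * k + 2 * M + 8) := ⟨_, rfl⟩
  have hη0 : 0 < η := by rw [hη]; positivity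
  have hθ0 : 0 < θ := by rw [hθ]; positivity
  have hθη : θ * (a / 2 ^ (r + 1)) = η ^ 2 / 2 := by
    rw [hθ, hη, div_pow, ← pow_mul]
    have e1 : (2 : ℝ) ^ ((k + M + 4) * 2) = 2 ^ (2 * k + 2 * M + 8) := by congr 1; ring
    rw [e1]
    field_simp
    rw [pow_succ]
  obtain ⟨H, hH⟩ : ∃ H : Finset (List Bool), H = A.filter fun τ => θ < tot τ := ⟨_, rfl⟩
  obtain ⟨T, hT⟩ : ∃ T : Finset (List Bool), T = A.filter fun τ => tot τ ≤ θ := ⟨_, rfl⟩
  have hHcard : H.card * 2 ^ M ≤ 2 ^ n := by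
    have h1 : (H.card : ℝ) * θ ≤ a / 2 ^ (r + 1) := by
      rw [← nsmul_eq_mul]
      refine (Finset.card_nsmul_le_sum H tot θ fun τ hτ => ?_).trans
        ((Finset.sum_le_sum_of_subset_of_nonneg (by rw [hH]; exact Finset.filter_subset _ _)
          fun τ _ _ => htot0 τ).trans htotA)
      rw [hH, Finset.mem_filter] at hτ
      exact hτ.2.le
    have h2 : (H.card : ℝ) ≤ 2 ^ (2 * k + 2 * M + 8) := by
      rw [hθ, ← mul_div_assoc, div_le_div_iff₀ (by positivity) (by positivity)] at h1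
      have h3 : (1 : ℝ) ≤ 2 ^ r := one_le_pow₀ (by norm_num)
      have h4 : (1 : ℝ) ≤ 2 ^ (r + 1) := one_le_pow₀ (by norm_num)
      have h5 : (H.card : ℝ) * a ≤ H.card * (a * 2 ^ r) * 2 ^ (r + 1) := by
        calc (H.card : ℝ) * a = H.card * (a * 1) * 1 := by ring
          _ ≤ _ := by gcongr
      have h6 : (H.card : ℝ) * a ≤ 2 ^ (2 * k + 2 * M + 8) * a := by
        rw [mul_comm (2 ^ (2 * k + 2 * M + 8) : ℝ)]; exact h5.trans h1
      exact le_of_mul_le_mul_right h6 ha0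
    have h3 : H.card ≤ 2 ^ (2 * k + 2 * M + 8) := by exact_mod_cast h2
    calc H.card * 2 ^ M ≤ 2 ^ (2 * k + 2 * M + 8) * 2 ^ M := Nat.mul_le_mul_right _ h3
      _ = 2 ^ (2 * k + 3 * M + 8) := by rw [← pow_add]; congr 1; ring
      _ ≤ 2 ^ n := Nat.pow_le_pow_right (by norm_num) hn
  obtain ⟨ε, hε⟩ : ∃ ε : ℝ, ε = η * 2 ^ M / 2 ^ n := ⟨_, rfl⟩
  have hε0 : 0 < ε := by rw [hε]; positivity
  obtain ⟨x', hx'⟩ : ∃ x' : List Bool → Option (List Bool) → ℝ,
      x' = fun τ o => o.elim ε (x τ) := ⟨_, rfl⟩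
  obtain ⟨F', hF'T, hF'⟩ := select T (Finset.insertNone (ext ρ0 k)) x' (1 / 2 ^ M) (by positivity)
    (div_le_one_of_le₀ (one_le_pow₀ (by norm_num)) (by positivity))
  -- the bound
  have hbound : ∑ τ ∈ T, ∑ j ∈ Finset.insertNone (ext ρ0 k), (x' τ j) ^ 2 ≤ η ^ 2 := by
    have h1 : ∀ τ ∈ T, ∑ j ∈ Finset.insertNone (ext ρ0 k), (x' τ j) ^ 2 ≤ ε ^ 2 + θ * tot τ := by
      intro τ hτ
      rw [Finset.sum_insertNone, hx']
      simp only [Option.elim]
      rw [htot]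
      simp only
      rw [Finset.mul_sum]
      gcongr with ρ hρ
      rw [sq]
      refine mul_le_mul_of_nonneg_right ?_ (hx0 τ ρ)
      rw [hT, Finset.mem_filter] at hτ
      refine le_trans ?_ hτ.2
      rw [htot]
      exact Finset.single_le_sum (f := fun ρ => x τ ρ) (fun ρ _ => hx0 τ ρ) hρ
    refine (Finset.sum_le_sum h1).trans ?_
    rw [Finset.sum_add_distrib, Finset.sum_const, nsmul_eq_mul, ← Finset.mul_sum]
    have hTA : T ⊆ A := by rw [hT]; exact Finset.filter_subset _ _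
    have h2 : (T.card : ℝ) * ε ^ 2 ≤ η ^ 2 / 2 := by
      have h3 : (T.card : ℝ) ≤ 2 ^ n := by
        have := Finset.card_le_card hTA
        rw [hcardA] at this
        exact_mod_cast this
      calc (T.card : ℝ) * ε ^ 2 ≤ 2 ^ n * ε ^ 2 := by gcongr
        _ = η ^ 2 * (2 ^ (2 * M) / 2 ^ n) := by
            rw [hε]
            have e1 : (2 : ℝ) ^ (2 * M) = 2 ^ M * 2 ^ M := by rw [← pow_add]; congr 1; ring
            rw [e1]
            field_simp
        _ ≤ η ^ 2 * (1 / 2) := by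
            refine mul_le_mul_of_nonneg_left ?_ (by positivity)
            rw [div_le_div_iff₀ (by positivity) (by norm_num), one_mul, ← pow_succ]
            exact pow_le_pow_right₀ (by norm_num) (by omega)
        _ = η ^ 2 / 2 := by ring
    have h4 : θ * ∑ τ ∈ T, tot τ ≤ η ^ 2 / 2 := by
      rw [← hθη]
      gcongr
      exact (Finset.sum_le_sum_of_subset_of_nonneg hTA fun τ _ _ => htot0 τ).trans htotA
    linarith
  have hdev : ∀ j ∈ Finset.insertNone (ext ρ0 k),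
      |∑ i ∈ F', x' i j - 1 / 2 ^ M * ∑ i ∈ T, x' i j| ≤ η := by
    intro j hj
    refine abs_le_of_sq_le_sq ?_ hη0.le
    refine le_trans ?_ (hF'.trans hbound)
    exact Finset.single_le_sum (f := fun j => (∑ i ∈ F', x' i j - 1 / 2 ^ M * ∑ i ∈ T, x' i j) ^ 2)
      (fun _ _ => sq_nonneg _) hj
  have hF'card : F'.card * 2 ^ M ≤ 2 * 2 ^ n := by
    have h1 := hdev none (by simp)
    rw [hx'] at h1
    simp only [Option.elim, Finset.sum_const, nsmul_eq_mul] at h1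
    have h2 := (abs_le.1 h1).2
    have h3 : (T.card : ℝ) ≤ 2 ^ n := by
      have hTA : T ⊆ A := by rw [hT]; exact Finset.filter_subset _ _
      have := Finset.card_le_card hTA
      rw [hcardA] at this
      exact_mod_cast this
    have h4 : 1 / 2 ^ M * ((T.card : ℝ) * ε) ≤ η := by
      calc 1 / 2 ^ M * ((T.card : ℝ) * ε) ≤ 1 / 2 ^ M * (2 ^ n * ε) := by gcongr
        _ = η := by rw [hε]; field_simp
    have h5 : (F'.card : ℝ) * ε ≤ 2 * η := by linarith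
    rw [hε, ← mul_div_assoc, div_le_iff₀ (by positivity)] at h5
    have h6 : ((F'.card : ℝ) * 2 ^ M) * η ≤ (2 * 2 ^ n) * η := by
      calc ((F'.card : ℝ) * 2 ^ M) * η = F'.card * (η * 2 ^ M) := by ring
        _ ≤ 2 * η * 2 ^ n := h5
        _ = _ := by ring
    have h7 := le_of_mul_le_mul_right h6 hη0
    exact_mod_cast h7
  have hdevρ : ∀ ρ ∈ ext ρ0 k, |∑ i ∈ F', x i ρ - 1 / 2 ^ M * ∑ i ∈ T, x i ρ| ≤ η := by
    intro ρ hρ
    have h1 := hdev (some ρ) (by simpa using hρ)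
    rw [hx'] at h1
    simpa only [Option.elim] using h1
  have hHF' : Disjoint H F' := by
    rw [Finset.disjoint_left]
    intro τ h1 h2
    have h3 := hF'T h2
    rw [hT, Finset.mem_filter] at h3
    rw [hH, Finset.mem_filter] at h1
    exact absurd h1.2 (not_lt.2 h3.2)
  obtain ⟨ψ, hψ⟩ : ∃ ψ : List Bool → ℝ≥0, ψ = fun w => if ℓ w ∈ H then φ w else
      if ℓ w ∈ F' then 2 ^ M * φ w else 0 := ⟨_, rfl⟩
  have hMψ : ∀ ρ, (Ms ψ L ρ : ℝ) = ∑ τ ∈ H, x τ ρ + 2 ^ M * ∑ τ ∈ F', x τ ρ := by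
    intro ρ
    rw [hsum, hsum, Finset.mul_sum, ← Finset.sum_add_distrib]
    unfold Ms
    push_cast
    refine Finset.sum_congr rfl fun w _ => ?_
    rw [hψ]
    simp only
    split_ifs with h1 h2 h2
    · exact absurd h2 (Finset.disjoint_left.1 hHF' h1)
    · simp
    · push_cast; simp
    · simp
  have hMφ' : ∀ ρ, (Ms φ L ρ : ℝ) = ∑ τ ∈ H, x τ ρ + ∑ τ ∈ T, x τ ρ := by
    intro ρ
    rw [hMsφ, hH, hT]
    rw [← Finset.sum_filter_add_sum_filter_not A (fun τ => θ < tot τ)]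
    simp only [not_lt]
  have hclose : ∀ ρ ∈ ext ρ0 k, |(Ms ψ L ρ : ℝ) - Ms φ L ρ| ≤ a / 2 ^ (k + 4) := by
    intro ρ hρ
    rw [hMψ, hMφ']
    have h1 : ∑ τ ∈ H, x τ ρ + 2 ^ M * ∑ τ ∈ F', x τ ρ - (∑ τ ∈ H, x τ ρ + ∑ τ ∈ T, x τ ρ) =
        2 ^ M * (∑ i ∈ F', x i ρ - 1 / 2 ^ M * ∑ i ∈ T, x i ρ) := by
      field_simp
      ring
    rw [h1, abs_mul, abs_of_pos (by positivity : (0 : ℝ) < 2 ^ M)]
    calc 2 ^ M * |∑ i ∈ F', x i ρ - 1 / 2 ^ M * ∑ i ∈ T, x i ρ| ≤ 2 ^ M * η := by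
          gcongr; exact hdevρ ρ hρ
      _ = a / 2 ^ (k + 4) := by
          rw [hη]
          have e1 : (2 : ℝ) ^ (k + M + 4) = 2 ^ M * 2 ^ (k + 4) := by rw [← pow_add]; congr 1; ring
          rw [e1]
          field_simp
  refine ⟨H ∪ F', ?_, ?_, ψ, ?_, ?_, ?_⟩
  · intro τ hτ
    rw [Finset.mem_union] at hτ
    rcases hτ with h1 | h1
    · rw [hH, Finset.mem_filter] at h1
      exact (hmemA _).1 h1.1
    · have h2 := hF'T h1
      rw [hT, Finset.mem_filter] at h2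
      exact (hmemA _).1 h2.1
  · calc (H ∪ F').card * 2 ^ M ≤ (H.card + F'.card) * 2 ^ M :=
          Nat.mul_le_mul_right _ (Finset.card_union_le _ _)
      _ = H.card * 2 ^ M + F'.card * 2 ^ M := by ring
      _ ≤ 2 ^ n + 2 * 2 ^ n := add_le_add hHcard hF'card
      _ ≤ 4 * 2 ^ n := by omega
  · intro w hw
    rw [hψ] at hw
    simp only at hw
    split_ifs at hw with h1 h2
    · exact ⟨hw, Finset.mem_union_left _ h1⟩
    · exact ⟨fun h3 => hw (by rw [h3]; simp), Finset.mem_union_right _ h2⟩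
    · exact absurd rfl hw
  · intro u hu
    rcases Nat.lt_or_ge u.length k with h1 | h1
    · -- upper nodes
      rw [← NNReal.coe_le_coe, wt_real]
      have h2 : (Ms ψ L u : ℝ) = ∑ ρ ∈ ext u k, (Ms ψ L ρ : ℝ) := by
        rw [Ms_levels ψ h1.le hkL]
        push_cast
        rfl
      have hsub : ext u k ⊆ ext ρ0 k := by
        intro ρ hρ
        rw [mem_ext] at hρ ⊢
        exact ⟨hρ.1, hu.trans hρ.2⟩
      have h3 : ∀ ρ ∈ ext u k, (Ms ψ L ρ : ℝ) ≤ a / 2 ^ k := by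
        intro ρ hρ
        have h4 := (abs_le.1 (hclose ρ (hsub hρ))).2
        have h5 := hMle ρ (hsub hρ)
        have h6 : a / 2 ^ (k + 4) = a / 2 ^ k / 16 := by rw [pow_add]; field_simp; norm_num
        have h7 : a / 2 ^ (k + 1) = a / 2 ^ k / 2 := by rw [pow_add]; field_simp
        have h8 : 0 < a / 2 ^ k := by positivity
        linarith
      rw [h2]
      refine (Finset.sum_le_sum h3).trans ?_
      rw [Finset.sum_const, card_ext h1.le, nsmul_eq_mul]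
      push_cast
      have h4 : (2 : ℝ) ^ k = 2 ^ (k - u.length) * 2 ^ u.length := by
        rw [← pow_add]; congr 1; omega
      have h5 : (2 : ℝ) ^ (k - u.length) * (a / 2 ^ k) = a / 2 ^ u.length := by
        rw [h4]; field_simp
      rw [h5, ha]
      gcongr
      · norm_num
      · exact hm hu.length_le
    · -- deep nodes
      refine le_trans ?_ (hφ1 u hu h1)
      unfold Ms
      rw [Finset.mul_sum]
      refine Finset.sum_le_sum fun w _ => ?_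
      rw [hψ]
      simp only
      have h2 : (1 : ℝ≥0) ≤ 2 ^ M := one_le_pow₀ (by norm_num)
      split_ifs
      · calc φ w = 1 * φ w := (one_mul _).symm
          _ ≤ 2 ^ M * φ w := by gcongr
      · exact le_rfl
      · exact zero_le
  · -- total mass
    have h2 : (Ms ψ L ρ0 : ℝ) = ∑ ρ ∈ ext ρ0 k, (Ms ψ L ρ : ℝ) := by
      rw [Ms_levels ψ (hr ▸ hk) hkL]
      push_cast
      rfl
    have h3 : ∀ ρ ∈ ext ρ0 k, (if ρ ∈ G then a / 2 ^ (k + 1) else 0) - a / 2 ^ (k + 4) ≤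
        (Ms ψ L ρ : ℝ) := by
      intro ρ hρ
      have h4 := (abs_le.1 (hclose ρ hρ)).1
      rw [hφ2 ρ hρ] at h4
      linarith
    have h4 := Finset.sum_le_sum h3
    rw [← h2, Finset.sum_sub_distrib, Finset.sum_const, hcard, nsmul_eq_mul, ← Finset.sum_filter,
      Finset.sum_const, nsmul_eq_mul] at h4
    have h5 : (ext ρ0 k).filter (fun ρ => ρ ∈ G) = G := by
      ext ρ
      rw [Finset.mem_filter]
      exact ⟨fun h => h.2, fun h => ⟨hG h, h⟩⟩
    rw [h5] at h4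
    push_cast at h4
    have h6 : (2 : ℝ) ^ (k - r) ≤ 2 * G.card := by exact_mod_cast hGc
    rw [wt_real, ← ha, ← hr]
    have h7 : (2 : ℝ) ^ (k - r) * (a / 2 ^ (k + 4)) = a / 2 ^ r / 16 := by
      rw [pow_add, h2k]; field_simp; norm_num
    have h8 : a / 2 ^ r / 4 ≤ G.card * (a / 2 ^ (k + 1)) := by
      calc a / 2 ^ r / 4 = (2 ^ (k - r) / 2) * (a / 2 ^ (k + 1)) := by
            rw [pow_add, h2k]; field_simp; norm_num
        _ ≤ G.card * (a / 2 ^ (k + 1)) := by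
            gcongr
            linarith
    rw [h7] at h4
    linarith

end

end CD

end Pool.Agent.Helper227
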