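import Pool.Agent.Helper227.CD.ForceD

set_option autoImplicit false

namespace Pool.Agent.Helper227

open Encodable MeasureTheory
open scoped ENNReal NNReal
open Nat.Partrec (Code)

namespace CD

theorem not_MLRandom_of_universal {Y : ℕ → Bool} (hY : ∀ b, Y ∈ UE EU0 zero b) : ¬ MLRandom Y := by
  intro hr
  have hW : REPred fun x : ℕ × List Bool => x ∈ {x : ℕ × List Bool | ∃ s : ℕ, EU0 (pre zero s, x.1, x.2)} := by
    have h1 : S1 fun x : ℕ × List Bool => ∃ s : ℕ, EU0 (pre zero s, x.1, x.2) := by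
      refine S1.ex (s1_EU0.comp (f := fun z : (ℕ × List Bool) × ℕ => (pre zero z.2, z.1.1, z.1.2)) ?_)
      have e : Primrec fun z : (ℕ × List Bool) × ℕ => pre zero z.2 :=
        Primrec.list_map (Primrec.list_range.comp Primrec.snd) (Primrec.const false)
      exact e.pair ((Primrec.fst.comp Primrec.fst).pair (Primrec.snd.comp Primrec.fst))
    exact h1.re
  have hset : ∀ n, (⋃ σ ∈ {σ : List Bool | (n, σ) ∈ {x : ℕ × List Bool | ∃ s : ℕ,
      EU0 (pre zero s, x.1, x.2)}}, cyl σ) ⊆ UE EU0 zero n := by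
    intro n X hX
    simp only [Set.mem_iUnion, Set.mem_ofPred_eq, exists_prop] at hX
    obtain ⟨σ, ⟨s, h1⟩, h2⟩ := hX
    rw [mem_cyl_iff] at h2
    exact ⟨s, σ.length, by rw [h2]; exact h1⟩
  obtain ⟨n, hn⟩ := hr _ hW fun n => (measure_mono (hset n)).trans (lam_UE_EU0_le zero n)
  obtain ⟨s, t, h1⟩ := hY n
  exact hn (pre Y t) ⟨s, h1⟩ (mem_cyl_pre Y t)

theorem initial {U : List Bool →. List Bool} (hU : IsUniversal U) (h : ℕ → ℕ) :
    WS h {v | KU U v + h v.length ≤ v.length} [] < wt h [] := by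
  classical
  -- minimal programs
  have hmin := fun y => hU.exists_min y
  choose p hp1 hp2 using hmin
  have hpinj : Function.Injective p := by
    intro y z hyz
    exact Part.mem_unique (hp2 y) (hyz ▸ hp2 z)
  have hK0 : 0 < KU U [] := by
    by_contra h0
    have h1 : p [] = [] := List.length_eq_zero_iff.1 (by rw [hp1]; omega)
    have h2 := hp2 []
    rw [h1] at h2
    have h3 := hU.1.2 [] (p [true]) (Part.dom_iff_mem.2 ⟨_, h2⟩) (Part.dom_iff_mem.2 ⟨_, hp2 [true]⟩)
      List.nil_prefix
    have h4 := hp2 [true]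
    rw [← h3] at h4
    have h5 := Part.mem_unique h2 h4
    simp at h5
  have hkraft : ∑' y : List Bool, (1 / 2 : ℝ≥0∞) ^ KU U y ≤ 1 := by
    let e : List Bool → {τ // (U τ).Dom} := fun y => ⟨p y, Part.dom_iff_mem.2 ⟨y, hp2 y⟩⟩
    have he : Function.Injective e := fun y z h => hpinj (congrArg Subtype.val h)
    have h1 := tsum_kraft (P := fun τ => (U τ).Dom) hU.1.2
    refine le_trans (le_of_eq ?_) ((ENNReal.tsum_comp_le_tsum_of_injective he
      (fun τ : {τ // (U τ).Dom} => (1 / 2 : ℝ≥0∞) ^ τ.1.length)).trans h1)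
    refine tsum_congr fun y => ?_
    rw [← hp1 y]
  have h1 : WS h {v | KU U v + h v.length ≤ v.length} [] + (1 / 2) ^ KU U [] ≤ 1 := by
    refine le_trans ?_ hkraft
    have h2 : (∑' y : List Bool, if y = [] then (1 / 2 : ℝ≥0∞) ^ KU U [] else 0) =
        (1 / 2) ^ KU U [] := by
      rw [tsum_eq_single []]
      · simp
      · intro y hy; rw [if_neg hy]
    rw [← h2]
    unfold WS
    rw [← ENNReal.tsum_add]
    refine ENNReal.tsum_le_tsum fun v => ?_
    by_cases hv : v = []
    · rw [if_pos hv, if_neg, zero_add, hv]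
      rintro ⟨h3, -⟩
      rw [hv] at h3
      simp only [Set.mem_ofPred_eq, List.length_nil] at h3
      omega
    · rw [if_neg hv, add_zero]
      split_ifs with h3
      · have h4 : KU U v + h v.length ≤ v.length := h3.1
        unfold wt
        rw [ENNReal.coe_div (by positivity)]
        push_cast
        rw [half_pow_eq, Nat.cast_one]
        rw [ENNReal.div_le_iff (by positivity) (by finiteness), ← ENNReal.mul_div_right_comm, one_mul,
          ENNReal.le_div_iff_mul_le (Or.inl (by positivity)) (Or.inl (by finiteness)), ← pow_add]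
        exact pow_le_pow_right₀ (by norm_num) (by omega)
      · exact zero_le
  have h2 : WS h {v | KU U v + h v.length ≤ v.length} [] < 1 := by
    have h3 : WS h {v | KU U v + h v.length ≤ v.length} [] ≠ ∞ := by
      intro h4; rw [h4] at h1; simp at h1
    calc WS h {v | KU U v + h v.length ≤ v.length} [] <
        WS h {v | KU U v + h v.length ≤ v.length} [] + (1 / 2) ^ KU U [] :=
          ENNReal.lt_add_right h3 (by simp)
      _ ≤ 1 := h1
  refine lt_of_lt_of_le h2 ?_
  unfold wt
  simp only [List.length_nil, pow_zero, div_one]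
  push_cast
  exact one_le_pow₀ (by norm_num)

theorem neg_main {U : List Bool →. List Bool} (hU : IsUniversal U) {h : ℕ → ℕ} (hh : Computable h)
    (hm : Monotone h) (hu : ∀ b, ∃ n, b ≤ h n) :
    ∃ X : ℕ → Bool, (∀ n, n < KU U (pre X n) + h n) ∧ ∀ Y, TLe Y X → ¬ MLRandom Y := by
  obtain ⟨X, h1, h2⟩ := force hm hu hh (initial hU h)
  refine ⟨X, fun n => ?_, fun Y hY => not_MLRandom_of_universal (h2 Y hY)⟩
  have h3 := h1 n
  simp only [Set.mem_ofPred_eq, length_pre, not_le] at h3
  exact h3

end CD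

end Pool.Agent.Helper227
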