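import Pool.Agent.Helper227.CD.Base

set_option autoImplicit false

namespace Pool.Agent.Helper227

open Encodable MeasureTheory
open scoped ENNReal
open Nat.Partrec (Code)

theorem exists_mem_cyl (w : List Bool) : ∃ X : ℕ → Bool, X ∈ cyl w := by
  refine ⟨fun i => w.getD i false, fun i h => ?_⟩
  simp [h]

theorem zs_eq_of_prefix {a b : ℕ} {w : List Bool} (h1 : zs a <+: w) (h2 : zs b <+: w) : a = b := by
  obtain ⟨X, hX⟩ := exists_mem_cyl w
  exact zs_inj (cyl_subset h1 hX) (cyl_subset h2 hX)

theorem s1_of_si_zero {α : Type*} [Primcodable α] {p : α → Prop} (h : SI zero p) : S1 p := by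
  obtain ⟨E, hE, mE, eE⟩ := h
  have h1 : S1 fun a : α => ∃ s : ℕ, E (pre zero s, a) := by
    refine S1.ex (hE.comp (f := fun x : α × ℕ => (pre zero x.2, x.1)) (Primrec.pair ?_ Primrec.fst))
    exact Primrec.list_map (Primrec.list_range.comp Primrec.snd) (Primrec.const false)
  exact h1.of_eq fun a => (eE a).symm

theorem isMachineIn_zero {M : List Bool →. List Bool} : IsMachineIn zero M ↔ IsMachine M := by
  constructor
  · rintro ⟨h1, h2⟩
    exact ⟨partrec_of_s1 (s1_of_si_zero (SI.iff_recIn.1 h1)), h2⟩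
  · rintro ⟨h1, h2⟩
    exact ⟨SI.iff_recIn.2 (SI.of_s1 (s1_graph h1)), h2⟩

theorem exists_isUniversal : ∃ U, IsUniversal U := by
  refine ⟨univ zero, isMachineIn_zero.1 (isUniversalIn_univ zero).1, fun M hM => ?_⟩
  exact (isUniversalIn_univ zero).2 M (isMachineIn_zero.2 hM)

theorem SI.comp_pre {X : ℕ → Bool} {α : Type*} [Primcodable α] {p : List Bool × α → Prop}
    (hp : SI X p) {f : α → ℕ} (hf : Primrec f) : SI X fun a => p (pre X (f a), a) := by
  have h : SI X fun a : α => ∃ ρ : List Bool, (ρ.length = f a ∧ ∀ i < ρ.length, X i = ρ.getD i false) ∧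
      p (ρ, a) := by
    refine SI.ex (SI.and (SI.and (SI.of_prim ?_) ?_) (hp.comp (f := fun x : α × List Bool =>
      (x.2, x.1)) (Primrec.snd.pair Primrec.fst)))
    · exact Primrec.eq.comp (Primrec.list_length.comp Primrec.snd) (hf.comp Primrec.fst)
    · refine SI.all_lt (α := α × List Bool) (p := fun x i => X i = x.2.getD i false)
        (f := fun x => x.2.length) ?_ (Primrec.list_length.comp Primrec.snd)
      exact SI.query.comp (f := fun z : (α × List Bool) × ℕ => (z.2, z.1.2.getD z.2 false))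
        (Primrec.snd.pair ((Primrec.list_getD false).comp (Primrec.snd.comp Primrec.fst)
          Primrec.snd))
  refine h.of_eq fun a => ?_
  constructor
  · rintro ⟨ρ, ⟨h1, h2⟩, h3⟩
    have : pre X (f a) = ρ := by
      rw [← h1]
      refine List.ext_getElem (by simp) fun i h4 h5 => ?_
      rw [getElem_pre, h2 i h5]
      simp [h5]
    rwa [this]
  · intro h3
    refine ⟨pre X (f a), ⟨by simp, fun i hi => ?_⟩, h3⟩
    exact (pre_getD X _ _ _ (by simpa using hi)).symm

/-- There is a random sequence computable from the halting problem. -/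
theorem exists_random_below : ∃ Y, MLRandom Y ∧ TLe Y (jump zero) := by
  obtain ⟨U, hU⟩ := exists_isUniversal
  have h0 : Neg.Ext U [] := by
    obtain ⟨X, hX⟩ := Neg.exists_good hU.1.2
    exact ⟨X, by rw [mem_cyl_iff]; rfl, hX⟩
  refine ⟨Neg.YY U, ?_, ?_⟩
  · by_contra hX
    obtain ⟨n, hn⟩ := exists_deficient hU hX 1
    obtain ⟨τ, h1, h2⟩ := hU.exists_min (pre (Neg.YY U) n)
    have h3 := Neg.not_bad_pre (Neg.not_bad_YY h0 n) h2
    omega
  · have hUr : RecursiveIn {chi zero} U := SI.iff_recIn.2 (SI.of_s1 (s1_graph hU.1.1))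
    obtain ⟨h1, h2⟩ := (Neg.si_not_ext hUr).decide_jump
    rw [tLe_iff_SI]
    have e : Primrec fun z : List Bool × ℕ => z.1.take z.2 ++ [true] :=
      Primrec.list_append.comp (Primrec.list_take.comp Primrec.snd Primrec.fst) (Primrec.const _)
    have e' : Primrec fun z : List Bool × ℕ => z.1.getD z.2 false :=
      (Primrec.list_getD false).comp Primrec.fst Primrec.snd
    have h3 : SI (jump zero) fun ρ : List Bool => ∀ i < ρ.length,
        (ρ.getD i false = true ∧ ¬ ¬ Neg.Ext U (ρ.take i ++ [true])) ∨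
        (ρ.getD i false = false ∧ ¬ Neg.Ext U (ρ.take i ++ [true])) := by
      refine SI.all_lt (α := List Bool) (f := fun ρ => ρ.length)
        (p := fun ρ i => (ρ.getD i false = true ∧ ¬ ¬ Neg.Ext U (ρ.take i ++ [true])) ∨
        (ρ.getD i false = false ∧ ¬ Neg.Ext U (ρ.take i ++ [true]))) ?_ Primrec.list_length
      refine SI.or (SI.and (SI.of_prim ?_) (h2.comp (f := fun z : List Bool × ℕ =>
        z.1.take z.2 ++ [true]) e)) (SI.and (SI.of_prim ?_)
        (h1.comp (f := fun z : List Bool × ℕ => z.1.take z.2 ++ [true]) e))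
      · exact Primrec.eq.comp e' (Primrec.const true)
      · exact Primrec.eq.comp e' (Primrec.const false)
    have h4 : SI (jump zero) fun x : ℕ × Bool => ∃ ρ : List Bool,
        (ρ.length = x.1 + 1 ∧ ρ.getD x.1 false = x.2) ∧ ∀ i < ρ.length,
        (ρ.getD i false = true ∧ ¬ ¬ Neg.Ext U (ρ.take i ++ [true])) ∨
        (ρ.getD i false = false ∧ ¬ Neg.Ext U (ρ.take i ++ [true])) := by
      refine SI.ex (SI.and (SI.of_prim (PrimrecPred.and ?_ ?_)) (h3.comp (f := fun z :
        (ℕ × Bool) × List Bool => z.2) Primrec.snd))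
      · exact Primrec.eq.comp (Primrec.list_length.comp Primrec.snd)
          (Primrec.succ.comp (Primrec.fst.comp Primrec.fst))
      · exact Primrec.eq.comp ((Primrec.list_getD false).comp Primrec.snd
          (Primrec.fst.comp Primrec.fst)) (Primrec.snd.comp Primrec.fst)
    have key : ∀ ρ : List Bool, (∀ i < ρ.length,
        (ρ.getD i false = true ∧ ¬ ¬ Neg.Ext U (ρ.take i ++ [true])) ∨
        (ρ.getD i false = false ∧ ¬ Neg.Ext U (ρ.take i ++ [true]))) ↔
        ρ = pre (Neg.YY U) ρ.length := by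
      intro ρ
      constructor
      · intro h
        have key : ∀ n ≤ ρ.length, ρ.take n = pre (Neg.YY U) n := by
          intro n
          induction n with
          | zero => simp [pre]
          | succ n ih =>
            intro hn
            have ih' := ih (by omega)
            rw [List.take_succ_eq_append_getElem (by omega), ih', pre_succ]
            congr 2
            have h1 := h n (by omega)
            rw [ih', ← Neg.YY_true] at h1
            rw [List.getD_eq_getElem _ _ (by omega)] at h1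
            rcases h1 with ⟨h1, h2⟩ | ⟨h1, h2⟩
            · rw [h1, not_not.1 h2]
            · rw [h1, Bool.eq_false_iff.2 h2]
        have := key ρ.length le_rfl
        rwa [List.take_length] at this
      · intro h i hi
        have h5 : ρ.getD i false = Neg.YY U i := by
          conv_lhs => rw [h]
          exact pre_getD _ _ _ _ hi
        have h6 : ρ.take i = pre (Neg.YY U) i := by
          conv_lhs => rw [h]
          exact take_pre _ _ _ hi.le
        rw [h5, h6, ← Neg.YY_true]
        cases Neg.YY U i <;> simp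
    refine h4.of_eq fun x => ?_
    simp only [key]
    constructor
    · rintro ⟨ρ, ⟨h5, h6⟩, h7⟩
      rw [← h6, h7, pre_getD _ _ _ _ (by omega)]
    · intro h5
      refine ⟨pre (Neg.YY U) (x.1 + 1), ⟨by simp, ?_⟩, by simp⟩
      rw [pre_getD _ _ _ _ (by omega), h5]

section pos

variable {q : ℕ → ℕ → Prop}

/-- `s` is the first stage at which `c` is enumerated -/
def First (q : ℕ → ℕ → Prop) (c s : ℕ) : Prop := q c s ∧ ∀ s' < s, ¬ q c s'

theorem first_unique {c s s' : ℕ} (h : First q c s) (h' : First q c s') : s = s' := by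
  rcases Nat.lt_trichotomy s s' with h1 | h1 | h1
  · exact absurd h.1 (h'.2 s h1)
  · exact h1
  · exact absurd h'.1 (h.2 s' h1)

theorem primrec_first (hq : PrimrecRel q) : PrimrecRel (First q) := by
  refine PrimrecPred.and hq (PP.all_lt (α := ℕ × ℕ) (f := fun x => x.2)
    (p := fun x s => ¬ q x.1 s) ?_ Primrec.snd)
  exact PrimrecPred.not (hq.comp (Primrec.fst.comp Primrec.fst) Primrec.snd)

open Classical in
/-- the deficiency bound: small exactly at the codes of enumeration events -/
noncomputable def hf (q : ℕ → ℕ → Prop) (m : ℕ) : ℕ :=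
  if First q m.unpair.1 m.unpair.2 then m.unpair.1 else m

theorem computable_hf (hq : PrimrecRel q) : Computable (hf q) := by
  classical
  refine Primrec.to_comp ?_
  unfold hf
  refine Primrec.ite ?_ (Primrec.fst.comp Primrec.unpair) Primrec.id
  exact (primrec_first hq).comp (Primrec.fst.comp Primrec.unpair) (Primrec.snd.comp Primrec.unpair)

theorem tendsto_hf : Filter.Tendsto (hf q) Filter.atTop Filter.atTop := by
  rw [Filter.tendsto_atTop]
  intro b
  rw [← Nat.cofinite_eq_atTop, Filter.eventually_cofinite]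
  have h1 : {m | ¬ b ≤ hf q m} ⊆ {m | m < b} ∪ ⋃ c ∈ {c : ℕ | c < b},
      {m | m.unpair.1 = c ∧ First q c m.unpair.2} := by
    intro m hm
    simp only [Set.mem_ofPred_eq, not_le] at hm
    simp only [Set.mem_union, Set.mem_ofPred_eq, Set.mem_iUnion, exists_prop]
    unfold hf at hm
    split_ifs at hm with h
    · right
      exact ⟨_, hm, rfl, h⟩
    · left
      exact hm
  refine Set.Finite.subset ((Set.finite_lt_nat b).union
    (Set.Finite.biUnion (Set.finite_lt_nat b) fun c _ => Set.Subsingleton.finite ?_)) h1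
  rintro m ⟨h2, h3⟩ m' ⟨h4, h5⟩
  rw [← Nat.pair_unpair m, ← Nat.pair_unpair m', h2, h4, first_unique h3 h5]

theorem hf_pair {c s : ℕ} (h : First q c s) : hf q (Nat.pair c s) = c := by
  unfold hf
  rw [Nat.unpair_pair]
  simp [h]

/-- a program that appends the missing bits -/
def Rm (U : List Bool →. List Bool) (q : ℕ → ℕ → Prop) (π z : List Bool) : Prop :=
  ∃ τ y : List Bool, ∃ c s : ℕ, ∃ ρ : List Bool, (π = τ ++ (zs c ++ ρ) ∧ First q c s ∧
    y.length + ρ.length = Nat.pair c s ∧ z = y ++ ρ) ∧ y ∈ U τ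

theorem s1_Rm {U : List Bool →. List Bool} (hU : Partrec U) (hq : PrimrecRel q) :
    S1 fun x : List Bool × List Bool => Rm U q x.1 x.2 := by
  unfold Rm
  refine S1.ex (S1.ex (S1.ex (S1.ex (S1.ex (S1.and (S1.of_prim ?_) ?_)))))
  · have e0 : Primrec fun z : (((((List Bool × List Bool) × List Bool) × List Bool) × ℕ) × ℕ) × List Bool =>
        z.1.1.1.1.1.1 := Primrec.fst.comp (Primrec.fst.comp (Primrec.fst.comp (Primrec.fst.comp
          (Primrec.fst.comp Primrec.fst))))
    have e1 : Primrec fun z : (((((List Bool × List Bool) × List Bool) × List Bool) × ℕ) × ℕ) × List Bool =>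
        z.1.1.1.1.1.2 := Primrec.snd.comp (Primrec.fst.comp (Primrec.fst.comp (Primrec.fst.comp
          (Primrec.fst.comp Primrec.fst))))
    have e2 : Primrec fun z : (((((List Bool × List Bool) × List Bool) × List Bool) × ℕ) × ℕ) × List Bool =>
        z.1.1.1.1.2 := Primrec.snd.comp (Primrec.fst.comp (Primrec.fst.comp (Primrec.fst.comp
          Primrec.fst)))
    have e3 : Primrec fun z : (((((List Bool × List Bool) × List Bool) × List Bool) × ℕ) × ℕ) × List Bool =>
        z.1.1.1.2 := Primrec.snd.comp (Primrec.fst.comp (Primrec.fst.comp Primrec.fst))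
    have e4 : Primrec fun z : (((((List Bool × List Bool) × List Bool) × List Bool) × ℕ) × ℕ) × List Bool =>
        z.1.1.2 := Primrec.snd.comp (Primrec.fst.comp Primrec.fst)
    have e5 : Primrec fun z : (((((List Bool × List Bool) × List Bool) × List Bool) × ℕ) × ℕ) × List Bool =>
        z.1.2 := Primrec.snd.comp Primrec.fst
    have e6 : Primrec fun z : (((((List Bool × List Bool) × List Bool) × List Bool) × ℕ) × ℕ) × List Bool =>
        z.2 := Primrec.snd
    refine PrimrecPred.and (Primrec.eq.comp e0 (Primrec.list_append.comp e2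
      (Primrec.list_append.comp (primrec_zs.comp e4) e6))) (PrimrecPred.and
      ((primrec_first hq).comp e4 e5) (PrimrecPred.and ?_ ?_))
    · exact Primrec.eq.comp (Primrec.nat_add.comp (Primrec.list_length.comp e3)
        (Primrec.list_length.comp e6)) (Primrec₂.natPair.comp e4 e5)
    · exact Primrec.eq.comp e1 (Primrec.list_append.comp e3 e6)
  · exact (s1_graph hU).comp (f := fun z : (((((List Bool × List Bool) × List Bool) × List Bool) × ℕ) × ℕ) × List Bool =>
      (z.1.1.1.1.2, z.1.1.1.2)) ((Primrec.snd.comp (Primrec.fst.comp (Primrec.fst.comp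
        (Primrec.fst.comp Primrec.fst)))).pair
        (Primrec.snd.comp (Primrec.fst.comp (Primrec.fst.comp Primrec.fst))))

theorem Rm_pf {U : List Bool →. List Bool} (hU : IsMachine U) (π π' z z' : List Bool)
    (h : Rm U q π z) (h' : Rm U q π' z') (hp : π <+: π') : π = π' ∧ z = z' := by
  obtain ⟨τ, y, c, s, ρ, ⟨h1, h2, h3, h4⟩, h5⟩ := h
  obtain ⟨τ', y', c', s', ρ', ⟨h1', h2', h3', h4'⟩, h5'⟩ := h'
  have hτ : τ = τ' := by
    have e1 : τ <+: π' := (List.prefix_append _ _).trans (h1 ▸ hp)
    have e2 : τ' <+: π' := by rw [h1']; exact List.prefix_append _ _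
    rcases List.prefix_or_prefix_of_prefix e1 e2 with h | h
    · exact hU.2 _ _ (Part.dom_iff_mem.2 ⟨_, h5⟩) (Part.dom_iff_mem.2 ⟨_, h5'⟩) h
    · exact (hU.2 _ _ (Part.dom_iff_mem.2 ⟨_, h5'⟩) (Part.dom_iff_mem.2 ⟨_, h5⟩) h).symm
  subst hτ
  have hy : y = y' := Part.mem_unique h5 h5'
  subst hy
  rw [h1, h1', List.prefix_append_right_inj] at hp
  have hc : c = c' := zs_eq_of_prefix ((List.prefix_append _ _).trans hp) (List.prefix_append _ _)
  subst hc
  have hs : s = s' := first_unique h2 h2'
  subst hs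
  rw [List.prefix_append_right_inj] at hp
  have hρ : ρ = ρ' := hp.eq_of_length (by omega)
  subst hρ
  exact ⟨h1.trans h1'.symm, h4.trans h4'.symm⟩

/-- A sequence whose deficiency is bounded by `hf` and that is not random computes the set
enumerated by `q`. -/
theorem decide_of_deficiency {U : List Bool →. List Bool} (hU : IsUniversal U)
    (hq : PrimrecRel q) (mq : ∀ a m n, m ≤ n → q a m → q a n) {X : ℕ → Bool}
    (hX : ∀ n, n < KU U (pre X n) + hf q n) (hr : ¬ MLRandom X) :
    SI X fun c => ¬ ∃ s, q c s := by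
  classical
  obtain ⟨d, hd⟩ := hU.machine (s1_Rm hU.1.1 hq) (Rm_pf hU.1)
  have h1 : SI X fun c : ℕ => ∃ n : ℕ, ∃ τ : List Bool,
      (τ.length + 2 * c + (d + 1) ≤ n ∧ ¬ q c n) ∧ pre X n ∈ U τ := by
    refine SI.ex (SI.ex (SI.and (SI.of_prim (PrimrecPred.and ?_ ?_)) ?_))
    · exact Primrec.nat_le.comp (Primrec.nat_add.comp (Primrec.nat_add.comp
        (Primrec.list_length.comp Primrec.snd) (Primrec.nat_mul.comp (Primrec.const 2)
          (Primrec.fst.comp Primrec.fst))) (Primrec.const (d + 1))) (Primrec.snd.comp Primrec.fst)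
    · exact PrimrecPred.not (hq.comp (Primrec.fst.comp Primrec.fst) (Primrec.snd.comp Primrec.fst))
    · have h2 : SI X fun x : List Bool × ((ℕ × ℕ) × List Bool) => x.1 ∈ U x.2.2 :=
        SI.of_s1 ((s1_graph hU.1.1).comp (f := fun x : List Bool × ((ℕ × ℕ) × List Bool) =>
          (x.2.2, x.1)) ((Primrec.snd.comp Primrec.snd).pair Primrec.fst))
      exact SI.comp_pre (p := fun x : List Bool × ((ℕ × ℕ) × List Bool) => x.1 ∈ U x.2.2) h2
        (f := fun a : (ℕ × ℕ) × List Bool => a.1.2) (Primrec.snd.comp Primrec.fst)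
  refine h1.of_eq fun c => ?_
  constructor
  · rintro ⟨n, τ, ⟨h2, h3⟩, h4⟩ ⟨s0, hs0⟩
    -- the first stage
    obtain ⟨s, hs⟩ : ∃ s, First q c s :=
      ⟨Nat.find ⟨s0, hs0⟩, Nat.find_spec ⟨s0, hs0⟩, fun s' hs' => Nat.find_min ⟨s0, hs0⟩ hs'⟩
    by_cases hn : Nat.pair c s ≤ n
    · exact h3 (mq _ _ _ ((Nat.right_le_pair c s).trans hn) hs.1)
    · push Not at hn
      obtain ⟨ρ, hρ⟩ := pre_prefix X hn.le
      have hlen : n + ρ.length = Nat.pair c s := by
        have := congrArg List.length hρ
        simpa using this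
      have h5 := hd (τ ++ (zs c ++ ρ)) (pre X (Nat.pair c s))
        ⟨τ, pre X n, c, s, ρ, ⟨rfl, hs, by simpa using hlen, hρ.symm⟩, h4⟩
      have h6 := hX (Nat.pair c s)
      rw [hf_pair hs] at h6
      simp only [List.length_append, zs_length] at h5
      omega
  · intro hc
    obtain ⟨n, hn⟩ := exists_deficient hU hr (2 * c + (d + 1))
    obtain ⟨τ, h2, h3⟩ := hU.exists_min (pre X n)
    exact ⟨n, τ, ⟨by omega, fun h => hc ⟨n, h⟩⟩, h3⟩

end pos

/-- positive part -/
theorem pos_main : ∃ h : ℕ → ℕ, Computable h ∧ Filter.Tendsto h Filter.atTop Filter.atTop ∧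
    ∀ U, IsUniversal U → ∀ X : ℕ → Bool, (∀ n, n < KU U (pre X n) + h n) →
      MLRandom X ∨ TLe (jump zero) X := by
  obtain ⟨q, hq, mq, eq⟩ := s1_of_si_zero (si_jump zero)
  refine ⟨hf q, computable_hf hq, tendsto_hf, fun U hU X hX => ?_⟩
  by_cases hr : MLRandom X
  · exact Or.inl hr
  · right
    have h1 := decide_of_deficiency hU hq mq hX hr
    have h2 : SI X fun c => jump zero c = true := (si_jump zero).trans (tLe_zero X)
    rw [tLe_iff_SI]
    have h3 : SI X fun x : ℕ × Bool => (jump zero x.1 = true ∧ x.2 = true) ∨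
        ((¬ ∃ s, q x.1 s) ∧ x.2 = false) := by
      refine SI.or (SI.and (h2.comp Primrec.fst) (SI.of_prim ?_)) (SI.and
        (h1.comp (f := fun x : ℕ × Bool => x.1) Primrec.fst) (SI.of_prim ?_))
      · exact Primrec.eq.comp Primrec.snd (Primrec.const true)
      · exact Primrec.eq.comp Primrec.snd (Primrec.const false)
    refine h3.of_eq fun x => ?_
    rw [← eq]
    rcases x with ⟨n, b⟩
    cases b <;> simp

/-- the largest nondecreasing minorant -/
noncomputable def mino (h : ℕ → ℕ) (n : ℕ) : ℕ := sInf (h '' Set.Ici n)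

theorem mino_le {h : ℕ → ℕ} {n m : ℕ} (hm : n ≤ m) : mino h n ≤ h m :=
  Nat.sInf_le ⟨m, hm, rfl⟩

theorem mino_mem (h : ℕ → ℕ) (n : ℕ) : ∃ m, n ≤ m ∧ h m = mino h n := by
  have : mino h n ∈ h '' Set.Ici n := Nat.sInf_mem ⟨h n, n, Set.mem_Ici.2 le_rfl, rfl⟩
  obtain ⟨m, hm, e⟩ := this
  exact ⟨m, hm, e⟩

theorem monotone_mino (h : ℕ → ℕ) : Monotone (mino h) := by
  intro n m hnm
  obtain ⟨k, hk, e⟩ := mino_mem h m
  rw [← e]
  exact mino_le (hnm.trans hk)

theorem tendsto_mino {h : ℕ → ℕ} (hh : Filter.Tendsto h Filter.atTop Filter.atTop) :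
    Filter.Tendsto (mino h) Filter.atTop Filter.atTop := by
  rw [Filter.tendsto_atTop] at hh ⊢
  intro b
  obtain ⟨N, hN⟩ := Filter.eventually_atTop.1 (hh b)
  rw [Filter.eventually_atTop]
  refine ⟨N, fun n hn => ?_⟩
  obtain ⟨m, hm, e⟩ := mino_mem h n
  rw [← e]
  exact hN m (hn.trans hm)

end Pool.Agent.Helper227
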