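import Pool.Agent.Helper227.CD.CertEx
import Pool.Agent.Helper227.CD.Pos

set_option autoImplicit false

namespace Pool.Agent.Helper227

open Encodable MeasureTheory
open scoped ENNReal NNReal
open Nat.Partrec (Code)

namespace CD

section

variable {h : ℕ → ℕ} {Ψ : List Bool × ℕ × Bool → Prop}

theorem primrec_mA : Primrec₂ mA := by
  have h1 : PrimrecRel fun (x : List Bool × ℕ) (u : List Bool) => x.1.take u.length = u :=
    Primrec.eq.comp (Primrec.list_take.comp (Primrec.list_length.comp Primrec.snd)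
      (Primrec.fst.comp Primrec.fst)) Primrec.snd
  have h2 : Primrec₂ fun (A : List (List Bool × ℕ)) (u : List Bool) =>
      A.filter fun x => x.1.take u.length = u :=
    (h1.listFilter).comp Primrec.fst Primrec.snd
  exact primrec_list_sum.comp (Primrec.list_map h2 (Primrec.snd.comp Primrec.snd))

theorem s1_Phi (hΨ : S1 Ψ) : S1 fun x : List Bool × List Bool => Phi Ψ x.1 x.2 := by
  unfold Phi
  refine S1.all_lt (α := List Bool × List Bool) (f := fun x => x.2.length)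
    (p := fun x i => Ψ (x.1, i, x.2.getD i false)) ?_ (Primrec.list_length.comp Primrec.snd)
  exact hΨ.comp (f := fun z : (List Bool × List Bool) × ℕ => (z.1.1, z.2, z.1.2.getD z.2 false))
    ((Primrec.fst.comp Primrec.fst).pair (Primrec.snd.pair ((Primrec.list_getD false).comp
      (Primrec.snd.comp Primrec.fst) Primrec.snd)))

theorem s1_cert (hh : Computable h) (hΨ : S1 Ψ) (ρ0 : List Bool) :
    S1 fun y : (ℕ × List (List Bool)) × (ℕ × ℕ × ℕ × List (List Bool × ℕ)) =>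
      Cert h Ψ ρ0 y.1.1 y.1.2 y.2.1 y.2.2.1 y.2.2.2.1 y.2.2.2.2 := by
  have eM : Primrec fun y : (ℕ × List (List Bool)) × (ℕ × ℕ × ℕ × List (List Bool × ℕ)) => y.1.1 :=
    Primrec.fst.comp Primrec.fst
  have eF : Primrec fun y : (ℕ × List (List Bool)) × (ℕ × ℕ × ℕ × List (List Bool × ℕ)) => y.1.2 :=
    Primrec.snd.comp Primrec.fst
  have eL : Primrec fun y : (ℕ × List (List Bool)) × (ℕ × ℕ × ℕ × List (List Bool × ℕ)) => y.2.1 :=
    Primrec.fst.comp Primrec.snd
  have eQ : Primrec fun y : (ℕ × List (List Bool)) × (ℕ × ℕ × ℕ × List (List Bool × ℕ)) => y.2.2.1 :=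
    Primrec.fst.comp (Primrec.snd.comp Primrec.snd)
  have en : Primrec fun y : (ℕ × List (List Bool)) × (ℕ × ℕ × ℕ × List (List Bool × ℕ)) => y.2.2.2.1 :=
    Primrec.fst.comp (Primrec.snd.comp (Primrec.snd.comp Primrec.snd))
  have eA : Primrec fun y : (ℕ × List (List Bool)) × (ℕ × ℕ × ℕ × List (List Bool × ℕ)) => y.2.2.2.2 :=
    Primrec.snd.comp (Primrec.snd.comp (Primrec.snd.comp Primrec.snd))
  have p1 : PrimrecPred fun y : (ℕ × List (List Bool)) × (ℕ × ℕ × ℕ × List (List Bool × ℕ)) =>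
      (∀ τ ∈ y.1.2, τ.length = y.2.2.2.1) ∧ y.1.2.length * 2 ^ y.1.1 ≤ 4 * 2 ^ y.2.2.2.1 := by
    refine PrimrecPred.and ?_ ?_
    · refine PP.all_mem (α := (ℕ × List (List Bool)) × (ℕ × ℕ × ℕ × List (List Bool × ℕ)))
        (f := fun y => y.1.2) (p := fun y τ => τ.length = y.2.2.2.1) ?_ eF
      exact Primrec.eq.comp (Primrec.list_length.comp Primrec.snd) (en.comp Primrec.fst)
    · exact Primrec.nat_le.comp (Primrec.nat_mul.comp (Primrec.list_length.comp eF)
        (primrec_pow.comp (Primrec.const 2) eM)) (Primrec.nat_mul.comp (Primrec.const 4)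
          (primrec_pow.comp (Primrec.const 2) en))
  have p2 : S1 fun y : (ℕ × List (List Bool)) × (ℕ × ℕ × ℕ × List (List Bool × ℕ)) =>
      ∀ x ∈ y.2.2.2.2, x.2 = 0 ∨ ((x.1.length = y.2.1 ∧ x.1.take ρ0.length = ρ0) ∧
        ∃ τ ∈ y.1.2, Phi Ψ x.1 τ) := by
    refine S1.all_mem (α := (ℕ × List (List Bool)) × (ℕ × ℕ × ℕ × List (List Bool × ℕ)))
      (f := fun y => y.2.2.2.2) (p := fun y x => x.2 = 0 ∨ ((x.1.length = y.2.1 ∧
        x.1.take ρ0.length = ρ0) ∧ ∃ τ ∈ y.1.2, Phi Ψ x.1 τ)) ?_ eA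
    refine S1.or (S1.of_prim (Primrec.eq.comp (Primrec.snd.comp Primrec.snd) (Primrec.const 0)))
      (S1.and (S1.of_prim (PrimrecPred.and ?_ ?_)) ?_)
    · exact Primrec.eq.comp (Primrec.list_length.comp (Primrec.fst.comp Primrec.snd))
        (eL.comp Primrec.fst)
    · exact Primrec.eq.comp (Primrec.list_take.comp (Primrec.const _) (Primrec.fst.comp Primrec.snd))
        (Primrec.const _)
    · have h1 : S1 fun z : ((ℕ × List (List Bool)) × (ℕ × ℕ × ℕ × List (List Bool × ℕ))) ×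
          (List Bool × ℕ) => ∃ τ : List Bool, (∃ ζ ∈ z.1.1.2, ζ = τ) ∧ Phi Ψ z.2.1 τ := by
        refine S1.ex (S1.and (S1.of_prim ?_) ?_)
        · refine PP.ex_mem (α := (((ℕ × List (List Bool)) × (ℕ × ℕ × ℕ × List (List Bool × ℕ))) ×
            (List Bool × ℕ)) × List Bool) (f := fun z => z.1.1.1.2) (p := fun z ζ => ζ = z.2)
            (Primrec.eq.comp Primrec.snd (Primrec.snd.comp Primrec.fst))
            (eF.comp (Primrec.fst.comp Primrec.fst))
        · exact (s1_Phi hΨ).comp (f := fun z : (((ℕ × List (List Bool)) × (ℕ × ℕ × ℕ ×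
            List (List Bool × ℕ))) × (List Bool × ℕ)) × List Bool => (z.1.2.1, z.2))
            ((Primrec.fst.comp (Primrec.snd.comp Primrec.fst)).pair Primrec.snd)
      exact h1.of_eq fun z => by simp
  have p3 : S1 fun y : (ℕ × List (List Bool)) × (ℕ × ℕ × ℕ × List (List Bool × ℕ)) =>
      ∀ j < y.2.1 + 1, ∀ u ∈ allStr j, u.take ρ0.length = ρ0 →
        mA y.2.2.2.2 u * 2 ^ j ≤ 2 ^ h j * 2 ^ y.2.2.1 := by
    refine S1.all_lt (α := (ℕ × List (List Bool)) × (ℕ × ℕ × ℕ × List (List Bool × ℕ)))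
      (f := fun y => y.2.1 + 1) (p := fun y j => ∀ u ∈ allStr j, u.take ρ0.length = ρ0 →
        mA y.2.2.2.2 u * 2 ^ j ≤ 2 ^ h j * 2 ^ y.2.2.1) ?_ (Primrec.succ.comp eL)
    have h2 : PrimrecPred fun z : ((List (List Bool × ℕ)) × ℕ) × ℕ × ℕ =>
        ∀ u ∈ allStr z.2.1, ¬ (u.take ρ0.length = ρ0) ∨
          mA z.1.1 u * 2 ^ z.2.1 ≤ 2 ^ z.2.2 * 2 ^ z.1.2 := by
      refine PP.all_mem (α := ((List (List Bool × ℕ)) × ℕ) × ℕ × ℕ)
        (f := fun z => allStr z.2.1) (p := fun z u => ¬ (u.take ρ0.length = ρ0) ∨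
          mA z.1.1 u * 2 ^ z.2.1 ≤ 2 ^ z.2.2 * 2 ^ z.1.2) ?_
        (primrec_allStr.comp (Primrec.fst.comp Primrec.snd))
      refine PrimrecPred.or (PrimrecPred.not ?_) ?_
      · exact Primrec.eq.comp (Primrec.list_take.comp (Primrec.const _) Primrec.snd)
          (Primrec.const _)
      · refine Primrec.nat_le.comp (Primrec.nat_mul.comp (primrec_mA.comp
          (Primrec.fst.comp (Primrec.fst.comp Primrec.fst)) Primrec.snd)
          (primrec_pow.comp (Primrec.const 2) (Primrec.fst.comp (Primrec.snd.comp Primrec.fst))))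
          (Primrec.nat_mul.comp (primrec_pow.comp (Primrec.const 2)
            (Primrec.snd.comp (Primrec.snd.comp Primrec.fst)))
            (primrec_pow.comp (Primrec.const 2) (Primrec.snd.comp (Primrec.fst.comp Primrec.fst))))
    have h3 : S1 fun w : ((ℕ × List (List Bool)) × (ℕ × ℕ × ℕ × List (List Bool × ℕ))) × ℕ =>
        ∀ u ∈ allStr w.2, ¬ (u.take ρ0.length = ρ0) ∨
          mA w.1.2.2.2.2 u * 2 ^ w.2 ≤ 2 ^ h w.2 * 2 ^ w.1.2.2.1 := by
      refine (S1.of_prim h2).comp_computable (f := fun w : ((ℕ × List (List Bool)) ×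
        (ℕ × ℕ × ℕ × List (List Bool × ℕ))) × ℕ => ((w.1.2.2.2.2, w.1.2.2.1), (w.2, h w.2))) ?_
      exact (Primrec.to_comp ((eA.comp Primrec.fst).pair (eQ.comp Primrec.fst))).pair
        (Computable.snd.pair (hh.comp Computable.snd))
    refine h3.of_eq fun w => ?_
    refine forall_congr' fun u => forall_congr' fun _ => ?_
    rw [← imp_iff_not_or]
  have p4 : PrimrecPred fun y : (ℕ × List (List Bool)) × (ℕ × ℕ × ℕ × List (List Bool × ℕ)) =>
      2 ^ h ρ0.length * 2 ^ y.2.2.1 ≤ 8 * mA y.2.2.2.2 ρ0 * 2 ^ ρ0.length := by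
    refine Primrec.nat_le.comp (Primrec.nat_mul.comp (Primrec.const _)
      (primrec_pow.comp (Primrec.const 2) eQ)) (Primrec.nat_mul.comp (Primrec.nat_mul.comp
        (Primrec.const 8) (primrec_mA.comp eA (Primrec.const _))) (Primrec.const _))
  exact (S1.of_prim p1).and (p2.and (p3.and (S1.of_prim p4)))

/-- there is a certificate for the set `F` -/
def PF (h : ℕ → ℕ) (Ψ : List Bool × ℕ × Bool → Prop) (ρ0 : List Bool) (x : ℕ × List (List Bool)) :
    Prop := ∃ y : ℕ × ℕ × ℕ × List (List Bool × ℕ),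
      Cert h Ψ ρ0 x.1 x.2 y.1 y.2.1 y.2.2.1 y.2.2.2

theorem s1_PF (hh : Computable h) (hΨ : S1 Ψ) (ρ0 : List Bool) : S1 (PF h Ψ ρ0) := by
  unfold PF
  exact S1.ex (s1_cert hh hΨ ρ0)

theorem UE_EU0_sup {E : List Bool × ℕ × List Bool → Prop} (hE : S1 E) :
    ∃ e : ℕ, ∀ (A : ℕ → Bool) (n : ℕ), lam (UE E A (n + e)) ≤ (1 / 2) ^ (n + e) →
      UE E A (n + e) ⊆ UE EU0 A n := by
  obtain ⟨c, hc⟩ := exists_DtSet hE
  refine ⟨encode c + 1, fun A n hn => ?_⟩
  rw [hc A _ hn, UE_EU0]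
  exact Set.subset_iUnion (fun c : Code => DtSet c A (n + encode c + 1)) c

/-- the level of the universal test reached by the first certified sets -/
theorem exists_level (hh : Computable h) (hΨ : S1 Ψ) (ρ0 : List Bool)
    (hall : ∀ M, ∃ F, PF h Ψ ρ0 (M, F)) (b : ℕ) :
    ∃ M F, PF h Ψ ρ0 (M, F) ∧ ∀ τ ∈ F, cyl τ ⊆ UE EU0 zero b := by
  classical
  obtain ⟨q, hq, mq, eq⟩ := s1_PF hh hΨ ρ0
  let g : ℕ → ℕ → Prop := fun M e => ∃ x ∈ (decode (α := List (List Bool) × ℕ) e).toList,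
    q (M, x.1) x.2
  have hg : PrimrecRel g := by
    refine PP.ex_mem (α := ℕ × ℕ) (f := fun z => (decode (α := List (List Bool) × ℕ) z.2).toList)
      (p := fun z x => q (z.1, x.1) x.2) ?_
      (Primrec.optionToList.comp (Primrec.decode.comp Primrec.snd))
    exact hq.comp ((Primrec.fst.comp Primrec.fst).pair (Primrec.fst.comp Primrec.snd))
      (Primrec.snd.comp Primrec.snd)
  have hgex : ∀ M, ∃ e, First g M e := by
    intro M
    have h1 : ∃ e, g M e := by
      obtain ⟨F, hF⟩ := hall M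
      obtain ⟨s, hs⟩ := (eq _).1 hF
      exact ⟨encode (F, s), (F, s), by simp, hs⟩
    exact ⟨Nat.find h1, Nat.find_spec h1, fun s' hs' => Nat.find_min h1 hs'⟩
  let E : List Bool × ℕ × List Bool → Prop := fun y => ∃ e : ℕ, First g (y.2.1 + 2) e ∧
    ∃ x ∈ (decode (α := List (List Bool) × ℕ) e).toList, ∃ ζ ∈ x.1, ζ = y.2.2
  have hE : S1 E := by
    refine S1.ex (S1.of_prim (PrimrecPred.and ?_ ?_))
    · exact (primrec_first hg).comp (Primrec.nat_add.comp (Primrec.fst.comp (Primrec.snd.comp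
        Primrec.fst)) (Primrec.const 2)) Primrec.snd
    · refine PP.ex_mem (α := (List Bool × ℕ × List Bool) × ℕ)
        (f := fun z => (decode (α := List (List Bool) × ℕ) z.2).toList)
        (p := fun z x => ∃ ζ ∈ x.1, ζ = z.1.2.2) ?_
        (Primrec.optionToList.comp (Primrec.decode.comp Primrec.snd))
      refine PP.ex_mem (α := ((List Bool × ℕ × List Bool) × ℕ) × (List (List Bool) × ℕ))
        (f := fun z => z.2.1) (p := fun z ζ => ζ = z.1.1.2.2) ?_ (Primrec.fst.comp Primrec.snd)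
      exact Primrec.eq.comp Primrec.snd (Primrec.snd.comp (Primrec.snd.comp
        (Primrec.fst.comp (Primrec.fst.comp Primrec.fst))))
  -- description of the levels
  have hUE : ∀ n, ∃ F, PF h Ψ ρ0 (n + 2, F) ∧ UE E zero n = {X | ∃ τ ∈ F, X ∈ cyl τ} := by
    intro n
    obtain ⟨e, he⟩ := hgex (n + 2)
    obtain ⟨x, hx, hqx⟩ := he.1
    refine ⟨x.1, (eq _).2 ⟨_, hqx⟩, ?_⟩
    ext X
    simp only [UE, E, Set.mem_ofPred_eq]
    constructor
    · rintro ⟨s, t, e', he', x', hx', ζ, hζ, h2⟩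
      have h3 := first_unique he he'
      subst h3
      have h4 : x' = x := by
        rw [Option.mem_toList] at hx hx'
        exact Option.mem_unique hx' hx
      subst h4
      refine ⟨ζ, hζ, ?_⟩
      rw [h2]
      exact mem_cyl_pre X t
    · rintro ⟨τ, hτ, hX⟩
      exact ⟨0, τ.length, e, he, x, hx, τ, hτ, (mem_cyl_iff.1 hX).symm⟩
  have hlam : ∀ n, lam (UE E zero n) ≤ (1 / 2) ^ n := by
    intro n
    obtain ⟨F, ⟨y, hy⟩, h2⟩ := hUE n
    rw [h2]
    obtain ⟨⟨h3, h4⟩, -⟩ := hy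
    simp only at h3 h4
    have h5 : {X : ℕ → Bool | ∃ τ ∈ F, X ∈ cyl τ} ⊆ ⋃ τ ∈ F.toFinset, cyl τ := by
      rintro X ⟨τ, h6, h7⟩
      simp only [Set.mem_iUnion, List.mem_toFinset, exists_prop]
      exact ⟨τ, h6, h7⟩
    refine (measure_mono h5).trans ((measure_biUnion_finset_le _ _).trans ?_)
    have h6 : ∀ τ ∈ F.toFinset, lam (cyl τ) = (1 / 2) ^ y.2.2.1 := by
      intro τ hτ
      rw [lam_cyl, h3 τ (List.mem_toFinset.1 hτ)]
    rw [Finset.sum_congr rfl h6, Finset.sum_const, nsmul_eq_mul]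
    have h7 : (F.toFinset.card : ℝ≥0∞) ≤ F.length := by exact_mod_cast List.toFinset_card_le F
    refine (mul_le_mul' h7 le_rfl).trans ?_
    rw [ennreal_aux]
    have h8 : F.length * 2 ^ (n + 2) = (F.length * 2 ^ n) * 4 := by rw [pow_add]; ring
    rw [h8] at h4
    have h9 : F.length * 2 ^ n * 4 ≤ 2 ^ y.2.2.1 * 4 := by rw [mul_comm (2 ^ y.2.2.1)]; exact h4
    exact Nat.le_of_mul_le_mul_right h9 (by norm_num)
  obtain ⟨e, he⟩ := UE_EU0_sup hE
  obtain ⟨F, hF, h2⟩ := hUE (b + e)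
  refine ⟨_, F, hF, fun τ hτ X hX => ?_⟩
  refine he zero b (hlam _) ?_
  rw [h2]
  exact ⟨τ, hτ, hX⟩

end

end CD

end Pool.Agent.Helper227
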