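import Pool.Agent.Helper227.CD.Base

set_option autoImplicit false

namespace Pool.Agent.Helper227

open Encodable MeasureTheory
open scoped ENNReal NNReal

namespace CD

section

variable (h : ℕ → ℕ)

/-- weight of a string -/
noncomputable def wt (v : List Bool) : ℝ≥0 := 2 ^ h v.length / 2 ^ v.length

open Classical in
/-- total weight of the members of `S` extending `σ` -/
noncomputable def WS (S : Set (List Bool)) (σ : List Bool) : ℝ≥0∞ :=
  ∑' v : List Bool, if v ∈ S ∧ σ <+: v then (wt h v : ℝ≥0∞) else 0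

/-- strings of length `k` extending `σ` -/
def ext (σ : List Bool) (k : ℕ) : Finset (List Bool) :=
  (allStr k).toFinset.filter fun ρ => σ <+: ρ

variable {h}

theorem mem_ext {σ ρ : List Bool} {k : ℕ} : ρ ∈ ext σ k ↔ ρ.length = k ∧ σ <+: ρ := by
  simp [ext, mem_allStr]

theorem card_ext {σ : List Bool} {k : ℕ} (hk : σ.length ≤ k) : (ext σ k).card = 2 ^ (k - σ.length) := by
  have h1 : ext σ k = (allStr (k - σ.length)).toFinset.image (fun ρ => σ ++ ρ) := by
    ext ρ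
    simp only [mem_ext, Finset.mem_image, List.mem_toFinset, mem_allStr]
    constructor
    · rintro ⟨h1, ρ', rfl⟩
      refine ⟨ρ', ?_, rfl⟩
      rw [List.length_append] at h1
      omega
    · rintro ⟨ρ', h1, rfl⟩
      refine ⟨?_, List.prefix_append _ _⟩
      rw [List.length_append]
      omega
  rw [h1, Finset.card_image_of_injective _ (List.append_right_injective σ),
    List.toFinset_card_of_nodup (nodup_allStr _), length_allStr]

theorem ext_empty {σ : List Bool} {k : ℕ} (hk : k < σ.length) : ext σ k = ∅ := by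
  ext ρ
  simp only [mem_ext, Finset.notMem_empty, iff_false, not_and]
  intro h1 h2
  have := h2.length_le
  omega

theorem wt_ne_zero (v : List Bool) : (wt h v : ℝ≥0∞) ≠ 0 := by
  simp [wt]

theorem wt_pos (v : List Bool) : 0 < wt h v := by
  unfold wt
  positivity

theorem prefix_unique {a b v : List Bool} (ha : a <+: v) (hb : b <+: v) (hl : a.length = b.length) :
    a = b := by
  rw [List.prefix_iff_eq_take.1 ha, List.prefix_iff_eq_take.1 hb, hl]

theorem sum_WS_le (S : Set (List Bool)) (σ : List Bool) (k : ℕ) :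
    ∑ ρ ∈ ext σ k, WS h S ρ ≤ WS h S σ := by
  classical
  unfold WS
  rw [← Summable.tsum_finsetSum (fun _ _ => ENNReal.summable)]
  refine ENNReal.tsum_le_tsum fun v => ?_
  by_cases hx : ∃ ρ ∈ ext σ k, v ∈ S ∧ ρ <+: v
  · obtain ⟨ρ, h1, h2, h3⟩ := hx
    rw [Finset.sum_eq_single ρ]
    · rw [if_pos ⟨h2, h3⟩, if_pos ⟨h2, (mem_ext.1 h1).2.trans h3⟩]
    · intro ρ' h4 hne
      rw [if_neg]
      rintro ⟨-, h5⟩
      exact hne (prefix_unique h5 h3 (by rw [(mem_ext.1 h4).1, (mem_ext.1 h1).1]))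
    · intro h4
      exact absurd h1 h4
  · push Not at hx
    rw [Finset.sum_eq_zero]
    · exact zero_le
    · intro ρ h1
      rw [if_neg]
      rintro ⟨h2, h3⟩
      exact hx ρ h1 h2 h3

open Classical in
theorem bad1 (hm : Monotone h) (S : Set (List Bool)) (σ : List Bool) (k : ℕ) :
    (((ext σ k).filter fun ρ => ∃ u ∈ S, σ <+: u ∧ u <+: ρ).card : ℝ≥0∞) * 2 ^ h σ.length ≤
      2 ^ k * WS h S σ := by
  have h1 : (((ext σ k).filter fun ρ => ∃ u ∈ S, σ <+: u ∧ u <+: ρ).card : ℝ≥0∞) ≤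
      ∑' u : List Bool, ∑ ρ ∈ ext σ k, if u ∈ S ∧ σ <+: u ∧ u <+: ρ then (1 : ℝ≥0∞) else 0 := by
    rw [Summable.tsum_finsetSum (fun _ _ => ENNReal.summable), Finset.card_eq_sum_ones,
      Finset.sum_filter]
    push_cast
    refine Finset.sum_le_sum fun ρ _ => ?_
    split_ifs with h2
    · obtain ⟨u, h3, h4, h5⟩ := h2
      refine le_trans ?_ (ENNReal.le_tsum u)
      rw [if_pos ⟨h3, h4, h5⟩]
    · simp
  refine (mul_le_mul' h1 le_rfl).trans ?_
  unfold WS
  rw [← ENNReal.tsum_mul_right, ← ENNReal.tsum_mul_left]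
  refine ENNReal.tsum_le_tsum fun u => ?_
  by_cases hu : u ∈ S ∧ σ <+: u
  · rw [if_pos hu]
    rcases Nat.lt_or_ge k u.length with hk | hk
    · rw [Finset.sum_eq_zero]
      · simp
      · intro ρ hρ
        rw [if_neg]
        rintro ⟨-, -, h5⟩
        have := h5.length_le
        rw [(mem_ext.1 hρ).1] at this
        omega
    · have h2 : (∑ ρ ∈ ext σ k, if u ∈ S ∧ σ <+: u ∧ u <+: ρ then (1 : ℝ≥0∞) else 0) ≤
          2 ^ (k - u.length) := by
        rw [← Finset.sum_filter, Finset.sum_const, nsmul_eq_mul, mul_one]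
        have h3 : ((ext σ k).filter fun ρ => u ∈ S ∧ σ <+: u ∧ u <+: ρ) ⊆ ext u k := by
          intro ρ hρ
          rw [Finset.mem_filter] at hρ
          exact mem_ext.2 ⟨(mem_ext.1 hρ.1).1, hρ.2.2.2⟩
        have h4 := Finset.card_le_card h3
        rw [card_ext hk] at h4
        exact_mod_cast h4
      refine (mul_le_mul' h2 (pow_le_pow_right₀ (by norm_num) (hm hu.2.length_le))).trans ?_
      unfold wt
      rw [ENNReal.coe_div (by positivity)]
      push_cast
      rw [← mul_div_assoc, ENNReal.le_div_iff_mul_le (Or.inl (by positivity)) (Or.inl (by finiteness)),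
        ← pow_add, ← pow_add, ← pow_add]
      refine pow_le_pow_right₀ (by norm_num) (by omega)
  · rw [Finset.sum_eq_zero]
    · simp
    · intro ρ _
      rw [if_neg]
      rintro ⟨h3, h4, -⟩
      exact hu ⟨h3, h4⟩

open Classical in
theorem bad2 (S : Set (List Bool)) (σ : List Bool) (k : ℕ) (δ : ℝ≥0∞) :
    (((ext σ k).filter fun ρ => δ * wt h ρ < WS h S ρ).card : ℝ≥0∞) * (δ * (2 ^ h k / 2 ^ k)) ≤
      WS h S σ := by
  refine le_trans ?_ (sum_WS_le S σ k)
  rw [← nsmul_eq_mul]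
  refine (Finset.card_nsmul_le_sum _ (fun ρ => WS h S ρ) _ ?_).trans
    (Finset.sum_le_sum_of_subset (Finset.filter_subset _ _))
  intro ρ hρ
  rw [Finset.mem_filter, mem_ext] at hρ
  refine le_trans (le_of_eq ?_) hρ.2.le
  unfold wt
  rw [hρ.1.1, ENNReal.coe_div (by positivity)]
  push_cast
  rfl

/-- the strings at level `k` that can be used to continue -/
def Good (h : ℕ → ℕ) (S : Set (List Bool)) (σ : List Bool) (δ : ℝ≥0∞) (ρ : List Bool) : Prop :=
  (∀ u ∈ S, σ <+: u → ¬ u <+: ρ) ∧ WS h S ρ ≤ δ * wt h ρ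

open Classical in
theorem good_count (hm : Monotone h) {S : Set (List Bool)} {σ : List Bool} {k : ℕ}
    (hk : σ.length ≤ k) {δ : ℝ≥0∞} (hδ : δ ≠ 0) (hδ' : δ ≠ ∞) :
    (2 ^ k / 2 ^ σ.length : ℝ≥0∞) ≤ ((ext σ k).filter fun ρ => Good h S σ δ ρ).card +
      (2 ^ k * WS h S σ / 2 ^ h σ.length + 2 ^ k * WS h S σ / (δ * 2 ^ h k)) := by
  have h1 := bad1 hm S σ k
  have h2 := bad2 (h := h) S σ k δ
  have hsub : ext σ k ⊆ ((ext σ k).filter fun ρ => Good h S σ δ ρ) ∪
      (((ext σ k).filter fun ρ => ∃ u ∈ S, σ <+: u ∧ u <+: ρ) ∪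
        ((ext σ k).filter fun ρ => δ * wt h ρ < WS h S ρ)) := by
    intro ρ hρ
    simp only [Finset.mem_union, Finset.mem_filter]
    by_cases h3 : ∃ u ∈ S, σ <+: u ∧ u <+: ρ
    · exact Or.inr (Or.inl ⟨hρ, h3⟩)
    · by_cases h4 : δ * wt h ρ < WS h S ρ
      · exact Or.inr (Or.inr ⟨hρ, h4⟩)
      · push Not at h3 h4
        exact Or.inl ⟨hρ, h3, h4⟩
  have h3 := (Finset.card_le_card hsub).trans ((Finset.card_union_le _ _).trans
    (Nat.add_le_add_left (Finset.card_union_le _ _) _))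
  rw [card_ext hk] at h3
  have h4 : (2 ^ k / 2 ^ σ.length : ℝ≥0∞) = ((2 ^ (k - σ.length) : ℕ) : ℝ≥0∞) := by
    have h5 : (2 : ℝ≥0∞) ^ k = 2 ^ (k - σ.length) * 2 ^ σ.length := by
      rw [← pow_add]; congr 1; omega
    rw [h5, ENNReal.mul_div_cancel_right (by positivity) (by finiteness)]
    push_cast
    rfl
  rw [h4]
  refine (Nat.cast_le.2 h3).trans ?_
  push_cast
  gcongr
  · rw [ENNReal.le_div_iff_mul_le (Or.inl (by positivity)) (Or.inl (by finiteness))]
    exact h1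
  · rw [ENNReal.le_div_iff_mul_le (Or.inl (by positivity)) (Or.inl (by finiteness))]
    calc _ = 2 ^ k * ((((ext σ k).filter fun ρ => δ * wt h ρ < WS h S ρ).card : ℝ≥0∞) *
          (δ * (2 ^ h k / 2 ^ k))) := by
          rw [← mul_div_assoc, ← mul_div_assoc, ← mul_div_assoc, mul_comm (2 ^ k),
            ENNReal.mul_div_cancel_right (by positivity) (by finiteness)]
      _ ≤ _ := by gcongr

theorem exists_good_ext (hm : Monotone h) (hu : ∀ b, ∃ n, b ≤ h n) {S : Set (List Bool)}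
    {σ : List Bool} (hw : WS h S σ < wt h σ) {δ : ℝ≥0∞} (hδ : δ ≠ 0) (hδ' : δ ≠ ∞) (N : ℕ) :
    ∃ ρ, σ <+: ρ ∧ N ≤ ρ.length ∧ Good h S σ δ ρ := by
  classical
  by_contra hc
  push Not at hc
  refine absurd hw (not_lt.2 ?_)
  have hWt : WS h S σ ≠ ∞ := (hw.trans ENNReal.coe_lt_top).ne
  have key : (1 : ℝ≥0∞) / 2 ^ σ.length ≤ WS h S σ / 2 ^ h σ.length := by
    refine ENNReal.le_of_forall_pos_le_add fun ε hε _ => ?_
    have hε' : (ε : ℝ≥0∞) ≠ 0 := by simpa using hε.ne'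
    obtain ⟨b, hb⟩ := ennreal_le_two_pow (x := WS h S σ / (δ * ε))
      (ENNReal.div_ne_top hWt (mul_ne_zero hδ hε'))
    obtain ⟨k0, hk0⟩ := hu b
    obtain ⟨k, hk⟩ : ∃ k, k = max k0 (max N σ.length) := ⟨_, rfl⟩
    have hkN : N ≤ k := by omega
    have hkσ : σ.length ≤ k := by omega
    have hkb : b ≤ h k := hk0.trans (hm (by omega))
    have h1 := good_count hm (S := S) hkσ hδ hδ'
    have h2 : (ext σ k).filter (fun ρ => Good h S σ δ ρ) = ∅ := by
      rw [Finset.filter_eq_empty_iff]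
      intro ρ hρ
      exact hc ρ (mem_ext.1 hρ).2 (by rw [(mem_ext.1 hρ).1]; exact hkN)
    rw [h2, Finset.card_empty, Nat.cast_zero, zero_add, mul_div_assoc, mul_div_assoc, ← mul_add,
      ← mul_one ((2 : ℝ≥0∞) ^ k), mul_assoc, one_mul, mul_div_assoc,
      ENNReal.mul_le_mul_iff_right (by positivity) (by finiteness)] at h1
    refine h1.trans ?_
    gcongr
    rw [ENNReal.div_le_iff (by positivity) (by finiteness)]
    rw [ENNReal.div_le_iff (mul_ne_zero hδ hε') (ENNReal.mul_ne_top hδ' (by simp))] at hb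
    calc WS h S σ ≤ 2 ^ b * (δ * ε) := hb
      _ ≤ 2 ^ h k * (δ * ε) := by gcongr; norm_num
      _ = ε * (δ * 2 ^ h k) := by ring
  rw [ENNReal.le_div_iff_mul_le (Or.inl (by positivity)) (Or.inl (by finiteness))] at key
  refine le_trans (le_of_eq ?_) key
  unfold wt
  rw [ENNReal.coe_div (by positivity)]
  push_cast
  rw [← ENNReal.mul_div_right_comm, one_mul]

open Classical in
theorem half_good (hm : Monotone h) {S : Set (List Bool)} {σ : List Bool} {k : ℕ}
    (hk : σ.length ≤ k) (hw : 64 * WS h S σ ≤ wt h σ) :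
    2 ^ (k - σ.length) ≤ 2 * ((ext σ k).filter fun ρ => Good h S σ (1 / 4) ρ).card := by
  have h1 := good_count hm (S := S) hk (δ := 1 / 4) (by simp) (by simp)
  obtain ⟨g, hg⟩ : ∃ g, g = ((ext σ k).filter fun ρ => Good h S σ (1 / 4) ρ).card := ⟨_, rfl⟩
  rw [← hg] at h1 ⊢
  have h4 : (2 ^ k / 2 ^ σ.length : ℝ≥0∞) = ((2 ^ (k - σ.length) : ℕ) : ℝ≥0∞) := by
    have h5 : (2 : ℝ≥0∞) ^ k = 2 ^ (k - σ.length) * 2 ^ σ.length := by
      rw [← pow_add]; congr 1; omega
    rw [h5, ENNReal.mul_div_cancel_right (by positivity) (by finiteness)]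
    push_cast
    rfl
  have h6 : (wt h σ : ℝ≥0∞) = 2 ^ h σ.length / 2 ^ σ.length := by
    unfold wt
    rw [ENNReal.coe_div (by positivity)]
    push_cast
    rfl
  rw [h6] at hw
  have h7 : 64 * (2 ^ k * WS h S σ / 2 ^ h σ.length) ≤ ((2 ^ (k - σ.length) : ℕ) : ℝ≥0∞) := by
    rw [← h4, ← mul_div_assoc, ENNReal.div_le_iff (by positivity) (by finiteness)]
    calc 64 * (2 ^ k * WS h S σ) = 2 ^ k * (64 * WS h S σ) := by ring
      _ ≤ 2 ^ k * (2 ^ h σ.length / 2 ^ σ.length) := by gcongr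
      _ = 2 ^ k / 2 ^ σ.length * 2 ^ h σ.length := by
          rw [← mul_div_assoc, ENNReal.mul_div_right_comm]
  have h8 : 64 * (2 ^ k * WS h S σ / (1 / 4 * 2 ^ h k)) ≤
      4 * ((2 ^ (k - σ.length) : ℕ) : ℝ≥0∞) := by
    rw [← h4, ← mul_div_assoc, ENNReal.div_le_iff (mul_ne_zero (by simp) (by positivity))
      (ENNReal.mul_ne_top (by simp) (by finiteness))]
    have h9 : (4 : ℝ≥0∞) * (1 / 4) = 1 := by
      rw [one_div, ENNReal.mul_inv_cancel (by norm_num) (by norm_num)]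
    calc 64 * (2 ^ k * WS h S σ) = 2 ^ k * (64 * WS h S σ) := by ring
      _ ≤ 2 ^ k * (2 ^ h σ.length / 2 ^ σ.length) := by gcongr
      _ = 2 ^ k / 2 ^ σ.length * 2 ^ h σ.length := by
          rw [← mul_div_assoc, ENNReal.mul_div_right_comm]
      _ ≤ 2 ^ k / 2 ^ σ.length * 2 ^ h k := by gcongr; norm_num; exact hm hk
      _ = 4 * (2 ^ k / 2 ^ σ.length) * (1 / 4 * 2 ^ h k) := by
          rw [mul_comm 4, mul_assoc, ← mul_assoc 4, h9, one_mul]
  rw [h4] at h1
  have h10 : (64 : ℝ≥0∞) * ((2 ^ (k - σ.length) : ℕ) : ℝ≥0∞) ≤ 64 * g +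
      (((2 ^ (k - σ.length) : ℕ) : ℝ≥0∞) + 4 * ((2 ^ (k - σ.length) : ℕ) : ℝ≥0∞)) := by
    refine (mul_le_mul' le_rfl h1).trans ?_
    rw [mul_add, mul_add]
    gcongr
  have h11 : 64 * 2 ^ (k - σ.length) ≤ 64 * g + (2 ^ (k - σ.length) + 4 * 2 ^ (k - σ.length)) := by
    exact_mod_cast h10
  omega

end

end CD

end Pool.Agent.Helper227
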